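import Mathlib

/-! # Arithmetic in the extended naturals -/

namespace Pool.H66.HE

/-- a number which is at most a natural number is a natural number -/
theorem ar_lift {a : ℕ∞} {n : ℕ} (h : a ≤ n) : ∃ m : ℕ, a = m := by
  lift a to ℕ using (ne_top_of_le_ne_top (ENat.natCast_ne_top n) h)
  exact ⟨a, rfl⟩

theorem ar1 {a b c : ℕ∞} (h : 2 ≤ a) (h2 : a + b ≤ c + 2) : b ≤ c := by
  enat_to_nat <;> first | omega | simp_all

theorem ar2 {b c e : ℕ∞} (h : b + 2 * e = c + 2) (h2 : 1 ≤ e) : b ≤ c := by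
  rcases eq_or_ne c ⊤ with rfl | hc
  · exact le_top
  lift c to ℕ using hc
  have hb : b ≤ ((c + 2 : ℕ) : ℕ∞) := by
    push_cast; rw [← h]; exact le_self_add
  have he : e ≤ ((c + 2 : ℕ) : ℕ∞) := by
    push_cast; rw [← h, two_mul]
    exact (le_self_add (a := e) (b := e)).trans le_add_self
  obtain ⟨b, rfl⟩ := ar_lift hb
  obtain ⟨e, rfl⟩ := ar_lift he
  norm_cast at *
  omega

theorem ar3 {b c e : ℕ∞} (h : c + 2 * e = b + 2) (h2 : e ≤ 1) : b ≤ c := by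
  enat_to_nat <;> first | omega | simp_all

theorem ar4 {a b c d : ℕ∞} (h : a + b ≤ c + d) (h1 : c = 3) (h2 : d = 3) (h3 : 3 ≤ a)
    (h4 : 3 ≤ b) : a = 3 ∧ b = 3 := by
  subst h1 h2
  enat_to_nat <;> first | omega | simp_all

theorem ar5 {a b : ℕ∞} (h : 4 ≤ a + b) (h1 : a ≤ 3) : b ≠ 0 := by
  rintro rfl
  rw [add_zero] at h
  have := h.trans h1
  norm_num at this

/-- `2 ≤ e` from a cut of size at least four with at most two other edges -/
theorem ar6 {a b : ℕ∞} (h : 4 ≤ a + b) (h1 : b ≤ 2) : 2 ≤ a := by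
  enat_to_nat <;> first | omega | simp_all

theorem ar7 {a b : ℕ∞} (h : a + b = 2) (h1 : 2 ≤ a) : b = 0 := by
  have ha : a ≤ ((2 : ℕ) : ℕ∞) := by push_cast; rw [← h]; exact le_self_add
  have hb : b ≤ ((2 : ℕ) : ℕ∞) := by push_cast; rw [← h]; exact le_add_self
  obtain ⟨a, rfl⟩ := ar_lift ha
  obtain ⟨b, rfl⟩ := ar_lift hb
  norm_cast at *
  omega

/-- two pieces meeting -/
theorem ar8 {a b : ℕ∞} (h : a + b ≤ 2 + 2) (h1 : 2 ≤ a) (h2 : 2 ≤ b) : b = 2 := by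
  have hb : b ≤ ((4 : ℕ) : ℕ∞) := by
    refine (le_add_self.trans h).trans ?_
    norm_num
  have ha : a ≤ ((4 : ℕ) : ℕ∞) := by
    refine (le_self_add.trans h).trans ?_
    norm_num
  obtain ⟨a, rfl⟩ := ar_lift ha
  obtain ⟨b, rfl⟩ := ar_lift hb
  norm_cast at *
  omega

/-- two adjacent pieces -/
theorem ar9 {b e : ℕ∞} (h : b + 2 * e = 2 + 2) (h1 : e ≠ 0) (h2 : 2 ≤ b) : b = 2 := by
  have hb : b ≤ ((4 : ℕ) : ℕ∞) := by
    have : ((4 : ℕ) : ℕ∞) = 2 + 2 := by norm_num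
    rw [this, ← h]; exact le_self_add
  have he : e ≤ ((4 : ℕ) : ℕ∞) := by
    have : ((4 : ℕ) : ℕ∞) = 2 + 2 := by norm_num
    rw [this, ← h, two_mul]
    exact (le_self_add (a := e) (b := e)).trans le_add_self
  obtain ⟨b, rfl⟩ := ar_lift hb
  obtain ⟨e, rfl⟩ := ar_lift he
  norm_cast at *
  omega

theorem ar10 {a b c : ℕ∞} (h : a + b = 2) (h1 : a = 1 ∨ 2 ≤ a) (h2 : c = b) : b ≤ 1 := by
  have ha : a ≤ ((2 : ℕ) : ℕ∞) := by push_cast; rw [← h]; exact le_self_add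
  have hb : b ≤ ((2 : ℕ) : ℕ∞) := by push_cast; rw [← h]; exact le_add_self
  obtain ⟨a, rfl⟩ := ar_lift ha
  obtain ⟨b, rfl⟩ := ar_lift hb
  norm_cast at *
  omega

end Pool.H66.HE
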