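import Pool.Agent.Helper66.HC.Cut

/-! # Counting edges between arbitrary vertex sets, with values in the extended naturals -/

open Set

namespace Pool.H66.HE

open Pool.H66.HC (prs prs_mono prs_swap)

universe u

variable {V : Type u} (G : SimpleGraph V)

/-- the number of edges between `S` and `T` (for disjoint sets) -/
noncomputable def ed (S T : Set V) : ℕ∞ := (prs G S T).encard

/-- every nonempty proper subset of `Z` has at least two edges to the rest of `Z` -/
def TC (Z : Set V) : Prop :=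
  ∀ S ⊆ Z, S.Nonempty → (Z \ S).Nonempty → 2 ≤ ed G S (Z \ S)

variable {G}

lemma ed_comm (S T : Set V) : ed G S T = ed G T S := by
  unfold ed
  rw [← prs_swap S T]
  exact (Function.Injective.encard_image Prod.swap_injective _).symm

lemma ed_mono {S S' T T' : Set V} (h : S ⊆ S') (h' : T ⊆ T') : ed G S T ≤ ed G S' T' :=
  Set.encard_le_encard (prs_mono h h')

lemma ed_union_right (S : Set V) {T T' : Set V} (h : Disjoint T T') :
    ed G S (T ∪ T') = ed G S T + ed G S T' := by
  unfold ed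
  rw [← Set.encard_union_eq]
  · congr 1
    ext p
    constructor
    · rintro ⟨h1, h2 | h2, h3⟩
      · exact Or.inl ⟨h1, h2, h3⟩
      · exact Or.inr ⟨h1, h2, h3⟩
    · rintro (⟨h1, h2, h3⟩ | ⟨h1, h2, h3⟩)
      · exact ⟨h1, Or.inl h2, h3⟩
      · exact ⟨h1, Or.inr h2, h3⟩
  · rw [Set.disjoint_left]
    rintro p ⟨_, h2, _⟩ ⟨_, h2', _⟩
    exact Set.disjoint_left.1 h h2 h2'

lemma ed_union_left {S S' : Set V} (T : Set V) (h : Disjoint S S') :
    ed G (S ∪ S') T = ed G S T + ed G S' T := by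
  rw [ed_comm, ed_union_right T h, ed_comm T S, ed_comm T S']

lemma ed_empty_left (T : Set V) : ed G ∅ T = 0 := by
  unfold ed
  rw [Set.encard_eq_zero, Set.eq_empty_iff_forall_notMem]
  rintro p ⟨h, _, _⟩
  exact h

lemma ed_empty_right (S : Set V) : ed G S ∅ = 0 := by
  rw [ed_comm, ed_empty_left]

lemma ed_eq_zero {S T : Set V} : ed G S T = 0 ↔ ∀ x ∈ S, ∀ y ∈ T, ¬ G.Adj x y := by
  unfold ed
  rw [Set.encard_eq_zero, Set.eq_empty_iff_forall_notMem]
  constructor
  · intro h x hx y hy hxy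
    exact h (x, y) ⟨hx, hy, hxy⟩
  · rintro h ⟨x, y⟩ ⟨hx, hy, hxy⟩
    exact h x hx y hy hxy

lemma ed_ne_zero {S T : Set V} (h : ed G S T ≠ 0) : ∃ x ∈ S, ∃ y ∈ T, G.Adj x y := by
  by_contra hcon
  push Not at hcon
  exact h (ed_eq_zero.2 hcon)

lemma ed_zero_mono {S S' T T' : Set V} (h : ed G S' T' = 0) (hS : S ⊆ S') (hT : T ⊆ T') :
    ed G S T = 0 := by
  have := ed_mono (G := G) hS hT
  rw [h] at this
  exact le_antisymm this zero_le

/-- splitting the second set -/
lemma ed_split_right (S : Set V) {T T' : Set V} (h : T' ⊆ T) :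
    ed G S T = ed G S T' + ed G S (T \ T') := by
  rw [← ed_union_right S disjoint_sdiff_right, Set.union_diff_cancel h]

lemma ed_split_left {S S' : Set V} (T : Set V) (h : S' ⊆ S) :
    ed G S T = ed G S' T + ed G (S \ S') T := by
  rw [ed_comm, ed_split_right T h, ed_comm T S', ed_comm T (S \ S')]

/-- the cut function of the induced graph on `O` is submodular -/
lemma sub_ineq {O S T : Set V} (hS : S ⊆ O) (hT : T ⊆ O) :
    ed G (S ∩ T) (O \ (S ∩ T)) + ed G (S ∪ T) (O \ (S ∪ T)) ≤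
      ed G S (O \ S) + ed G T (O \ T) := by
  set A := S ∩ T with hA
  set B := S \ T with hB
  set C := T \ S with hC
  set D := O \ (S ∪ T) with hD
  have dAB : Disjoint A B := by rw [hA, hB, Set.disjoint_left]; rintro x ⟨_, h1⟩ ⟨_, h2⟩; exact h2 h1
  have dAC : Disjoint A C := by rw [hA, hC, Set.disjoint_left]; rintro x ⟨h1, _⟩ ⟨_, h2⟩; exact h2 h1
  have dBC : Disjoint B C := by rw [hB, hC, Set.disjoint_left]; rintro x ⟨h1, _⟩ ⟨_, h2⟩; exact h2 h1
  have dAD : Disjoint A D := by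
    rw [hA, hD, Set.disjoint_left]; rintro x ⟨h1, _⟩ ⟨_, h2⟩; exact h2 (Or.inl h1)
  have dBD : Disjoint B D := by
    rw [hB, hD, Set.disjoint_left]; rintro x ⟨h1, _⟩ ⟨_, h2⟩; exact h2 (Or.inl h1)
  have dCD : Disjoint C D := by
    rw [hC, hD, Set.disjoint_left]; rintro x ⟨h1, _⟩ ⟨_, h2⟩; exact h2 (Or.inr h1)
  have eS : S = A ∪ B := (Set.inter_union_diff S T).symm
  have eT : T = A ∪ C := by rw [hA, hC, Set.inter_comm]; exact (Set.inter_union_diff T S).symm
  have eU : S ∪ T = (A ∪ B) ∪ C := by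
    rw [← eS, hC]; exact (Set.union_diff_self).symm
  have oS : O \ S = C ∪ D := by
    ext x
    simp only [hC, hD, mem_diff, mem_union]
    constructor
    · rintro ⟨h1, h2⟩
      by_cases hx : x ∈ T
      · exact Or.inl ⟨hx, h2⟩
      · exact Or.inr ⟨h1, by tauto⟩
    · rintro (⟨h1, h2⟩ | ⟨h1, h2⟩)
      · exact ⟨hT h1, h2⟩
      · exact ⟨h1, by tauto⟩
  have oT : O \ T = B ∪ D := by
    ext x
    simp only [hB, hD, mem_diff, mem_union]
    constructor
    · rintro ⟨h1, h2⟩
      by_cases hx : x ∈ S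
      · exact Or.inl ⟨hx, h2⟩
      · exact Or.inr ⟨h1, by tauto⟩
    · rintro (⟨h1, h2⟩ | ⟨h1, h2⟩)
      · exact ⟨hS h1, h2⟩
      · exact ⟨h1, by tauto⟩
  have oA : O \ A = (B ∪ C) ∪ D := by
    ext x
    simp only [hA, hB, hC, hD, mem_diff, mem_union, mem_inter_iff]
    constructor
    · rintro ⟨h1, h2⟩
      by_cases hx : x ∈ S <;> by_cases hy : x ∈ T <;> tauto
    · rintro ((⟨h1, h2⟩ | ⟨h1, h2⟩) | ⟨h1, h2⟩)
      · exact ⟨hS h1, by tauto⟩
      · exact ⟨hT h1, by tauto⟩
      · exact ⟨h1, by tauto⟩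
  rw [eU, oA, oS, oT]
  rw [ed_union_right A (Set.disjoint_union_left.2 ⟨dBD, dCD⟩), ed_union_right A dBC,
    ed_union_left D (Set.disjoint_union_left.2 ⟨dAC, dBC⟩), ed_union_left D dAB]
  have h1 : ed G S (C ∪ D) = ed G A C + ed G A D + (ed G B C + ed G B D) := by
    rw [ed_union_right S dCD]
    conv_lhs => rw [eS]
    rw [ed_union_left C dAB, ed_union_left D dAB]
    ring
  have h2 : ed G T (B ∪ D) = ed G A B + ed G A D + (ed G C B + ed G C D) := by
    rw [ed_union_right T dBD]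
    conv_lhs => rw [eT]
    rw [ed_union_left B dAC, ed_union_left D dAC]
    ring
  rw [h1, h2]
  have h3 : ed G A B + ed G A C + ed G A D + (ed G A D + ed G B D + ed G C D) +
      (ed G B C + ed G C B) = ed G A C + ed G A D + (ed G B C + ed G B D) +
      (ed G A B + ed G A D + (ed G C B + ed G C D)) := by ring
  rw [← h3]
  exact le_self_add

/-- the cut function is symmetric -/
lemma f_symm {O S : Set V} (hS : S ⊆ O) : ed G (O \ S) (O \ (O \ S)) = ed G S (O \ S) := by
  rw [Set.diff_diff_cancel_left hS, ed_comm]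

/-- the cut function is posimodular -/
lemma posi_ineq {O S T : Set V} (hS : S ⊆ O) (hT : T ⊆ O) :
    ed G (S \ T) (O \ (S \ T)) + ed G (T \ S) (O \ (T \ S)) ≤
      ed G S (O \ S) + ed G T (O \ T) := by
  have h := sub_ineq (G := G) hS (Set.diff_subset : O \ T ⊆ O)
  rw [f_symm hT] at h
  have e1 : S ∩ (O \ T) = S \ T := by
    ext x
    simp only [mem_inter_iff, mem_diff]
    constructor
    · rintro ⟨h1, _, h2⟩; exact ⟨h1, h2⟩
    · rintro ⟨h1, h2⟩; exact ⟨h1, hS h1, h2⟩
  have e2 : S ∪ (O \ T) = O \ (T \ S) := by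
    ext x
    simp only [mem_union, mem_diff, not_and, not_not]
    constructor
    · rintro (h1 | ⟨h1, h2⟩)
      · exact ⟨hS h1, fun _ => h1⟩
      · exact ⟨h1, fun h3 => absurd h3 h2⟩
    · rintro ⟨h1, h2⟩
      by_cases hx : x ∈ T
      · exact Or.inl (h2 hx)
      · exact Or.inr ⟨h1, hx⟩
  rw [e1, e2, f_symm ((Set.diff_subset).trans hT)] at h
  exact h

/-- the cut function of a disjoint union -/
lemma f_union {O S T : Set V} (hS : S ⊆ O) (hT : T ⊆ O) (h : Disjoint S T) :
    ed G (S ∪ T) (O \ (S ∪ T)) + 2 * ed G S T = ed G S (O \ S) + ed G T (O \ T) := by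
  have e1 : O \ S = T ∪ (O \ (S ∪ T)) := by
    ext x
    simp only [mem_diff, mem_union]
    constructor
    · rintro ⟨h1, h2⟩
      by_cases hx : x ∈ T
      · exact Or.inl hx
      · exact Or.inr ⟨h1, by tauto⟩
    · rintro (h1 | ⟨h1, h2⟩)
      · exact ⟨hT h1, fun h2 => Set.disjoint_left.1 h h2 h1⟩
      · exact ⟨h1, by tauto⟩
  have e2 : O \ T = S ∪ (O \ (S ∪ T)) := by
    ext x
    simp only [mem_diff, mem_union]
    constructor
    · rintro ⟨h1, h2⟩
      by_cases hx : x ∈ S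
      · exact Or.inl hx
      · exact Or.inr ⟨h1, by tauto⟩
    · rintro (h1 | ⟨h1, h2⟩)
      · exact ⟨hS h1, fun h2 => Set.disjoint_left.1 h h1 h2⟩
      · exact ⟨h1, by tauto⟩
  have d1 : Disjoint T (O \ (S ∪ T)) := by
    rw [Set.disjoint_left]; intro x h1 h2; exact h2.2 (Or.inr h1)
  have d2 : Disjoint S (O \ (S ∪ T)) := by
    rw [Set.disjoint_left]; intro x h1 h2; exact h2.2 (Or.inl h1)
  rw [e1, e2, ed_union_right S d1, ed_union_right T d2, ed_union_left _ h, ed_comm T S]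
  ring

/-- adding a set which is not in `O` -/
lemma f_add {O K S : Set V} (hS : S ⊆ O) (hK : K ⊆ O) (h : Disjoint S K) :
    ed G S (O \ S) = ed G S ((O \ K) \ S) + ed G S K := by
  have e1 : O \ S = ((O \ K) \ S) ∪ K := by
    ext x
    simp only [mem_diff, mem_union]
    constructor
    · rintro ⟨h1, h2⟩
      by_cases hx : x ∈ K
      · exact Or.inr hx
      · exact Or.inl ⟨⟨h1, hx⟩, h2⟩
    · rintro (⟨⟨h1, _⟩, h2⟩ | h1)
      · exact ⟨h1, h2⟩
      · exact ⟨hK h1, fun h2 => Set.disjoint_left.1 h h2 h1⟩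
  have d1 : Disjoint ((O \ K) \ S) K := by
    rw [Set.disjoint_left]; rintro x ⟨⟨_, h1⟩, _⟩ h2; exact h1 h2
  rw [e1, ed_union_right S d1]

/-- a union of a nonempty chain of sets with at most `n` boundary edges has at most `n` boundary
edges -/
lemma chain_le {O : Set V} {c : Set (Set V)} (hc : IsChain (· ⊆ ·) c) (hne : c.Nonempty) {n : ℕ}
    (h : ∀ S ∈ c, ed G S (O \ S) ≤ n) : ed G (⋃₀ c) (O \ ⋃₀ c) ≤ n := by
  by_contra hcon
  push Not at hcon
  -- a finite subset with `n + 1` elements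
  have h1 : ((n + 1 : ℕ) : ℕ∞) ≤ (prs G (⋃₀ c) (O \ ⋃₀ c)).encard := by
    have := Order.add_one_le_of_lt hcon
    exact_mod_cast this
  obtain ⟨t, ht, htn⟩ := Set.exists_subset_encard_eq h1
  have hfin : t.Finite := by
    apply Set.finite_of_encard_eq_coe htn
  -- all the first coordinates are in one member
  have key : ∀ s : Set (V × V), s.Finite → s ⊆ t → ∃ S ∈ c, ∀ p ∈ s, p.1 ∈ S := by
    intro s hs
    induction s, hs using Set.Finite.induction_on with
    | empty =>
      intro _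
      obtain ⟨S, hS⟩ := hne
      exact ⟨S, hS, fun p hp => absurd hp (Set.notMem_empty p)⟩
    | insert ha hs ih =>
      intro hst
      obtain ⟨S, hS, hS2⟩ := ih ((Set.subset_insert _ _).trans hst)
      have h2 := ht (hst (Set.mem_insert _ _))
      obtain ⟨T, hT, hT2⟩ := h2.1
      rcases hc.total hS hT with h3 | h3
      · refine ⟨T, hT, ?_⟩
        intro p hp
        rcases hp with rfl | hp
        · exact hT2
        · exact h3 (hS2 p hp)
      · refine ⟨S, hS, ?_⟩
        intro p hp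
        rcases hp with rfl | hp
        · exact h3 hT2
        · exact hS2 p hp
  obtain ⟨S, hS, hS2⟩ := key t hfin Subset.rfl
  have h3 : t ⊆ prs G S (O \ S) := by
    intro p hp
    have h4 := ht hp
    refine ⟨hS2 p hp, ⟨h4.2.1.1, ?_⟩, h4.2.2⟩
    intro h5
    exact h4.2.1.2 ⟨S, hS, h5⟩
  have h4 := (Set.encard_le_encard h3).trans (h S hS)
  rw [htn] at h4
  have : n + 1 ≤ n := by exact_mod_cast h4
  omega

end Pool.H66.HE
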