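import Pool.Agent.Helper66.HE.Three

/-! # Hubs: adding a maximal piece, the criterion, existence -/

open Set

namespace Pool.H66.HE

open Pool.H66.HC (prs prs_mono prs_swap)

universe u

variable {V : Type u}

theorem ar15 {a b c : ℕ∞} (h1 : a = b + 2) (h2 : c + 2 * 2 = a + 2) : c = b := by
  subst h1
  have h3 : (b + 2) + 2 = b + 2 * 2 := by ring
  rw [h3] at h2
  rcases eq_or_ne b ⊤ with rfl | hb
  · rcases eq_or_ne c ⊤ with rfl | hc
    · rfl
    · exfalso
      lift c to ℕ using hc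
      rw [top_add] at h2
      have h4 : ((c : ℕ) : ℕ∞) + 2 * 2 = ((c + 4 : ℕ) : ℕ∞) := by push_cast; ring
      rw [h4] at h2
      exact ENat.natCast_ne_top _ h2
  · rcases eq_or_ne c ⊤ with rfl | hc
    · exfalso
      lift b to ℕ using hb
      rw [top_add] at h2
      have h4 : ((b : ℕ) : ℕ∞) + 2 * 2 = ((b + 4 : ℕ) : ℕ∞) := by push_cast; ring
      rw [h4] at h2
      exact ENat.natCast_ne_top _ h2.symm
    · lift b to ℕ using hb
      lift c to ℕ using hc
      norm_cast at *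
      omega

theorem ar16 {a b : ℕ∞} (h : a = b + 1) (h1 : ¬ a ≤ 3) : 3 ≤ b := by
  rcases ar_cases b with h2 | h2
  · by_contra h3
    apply h1
    rw [h]
    have : b ≤ 2 := by
      rw [not_le] at h3
      have h4 : b < ((3 : ℕ) : ℕ∞) := by exact_mod_cast h3
      have h5 : b ≤ ((2 : ℕ) : ℕ∞) := by
        have : ((3 : ℕ) : ℕ∞) = ((2 : ℕ) : ℕ∞) + 1 := by norm_num
        rw [this] at h4
        exact Order.le_of_lt_add_one h4
      exact_mod_cast h5
    calc b + 1 ≤ 2 + 1 := by gcongr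
      _ = 3 := by norm_num
  · exfalso
    apply h1
    rw [h]
    calc b + 1 ≤ 1 + 1 := by gcongr
      _ ≤ 3 := by norm_num

theorem ar17 {a b : ℕ∞} (h : a + b ≤ 1) (h1 : b ≠ 0) : a = 0 := by
  obtain ⟨a, rfl⟩ := ar_lift (n := 1) (a := a) (by exact_mod_cast le_self_add.trans h)
  obtain ⟨b, rfl⟩ := ar_lift (n := 1) (a := b) (by exact_mod_cast le_add_self.trans h)
  norm_cast at *
  omega

theorem ar18 {a : ℕ∞} (h2 : 2 ≤ a) (h3 : a ≠ 2) (h4 : ¬ 4 ≤ a) : a = 3 := by
  rw [not_le] at h4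
  obtain ⟨a, rfl⟩ := ar_lift (n := 4) (a := a) (by exact_mod_cast h4.le)
  norm_cast at *
  omega

variable {G : SimpleGraph V} {X X1 N : Set V}

lemma fn_add {S K : Set V} (hS : S ⊆ Nᶜ) (hK : K ⊆ Nᶜ) (h : Disjoint S K) :
    fn G N S = fn G (N ∪ K) S + ed G S K := by
  have e : (N ∪ K)ᶜ = Nᶜ \ K := by rw [Set.compl_union]; rfl
  unfold fn
  rw [e]
  exact f_add hS hK h

/-- `N` is a hub -/
def Good (G : SimpleGraph V) (X N : Set V) : Prop :=
  ∀ M : Finset (Set V), (∀ K ∈ M, K ⊆ X \ N ∧ K.Nonempty) →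
    (∀ K ∈ M, ∀ K' ∈ M, K ≠ K' → Disjoint K K' ∧ ed G K K' = 0) →
    2 * (M.card : ℕ∞) + 2 ≤
      ed G (N ∪ ⋃₀ (M : Set (Set V))) (N ∪ ⋃₀ (M : Set (Set V)))ᶜ

/-- no set of the family is crossed by `K` -/
def Unc (G : SimpleGraph V) (X N K : Set V) : Prop := ∀ Y, LL G X N Y → ed G K Y ≠ 1

namespace Cfg

variable (C : Cfg G X X1 N)

include C

omit C in
lemma sub_add {K Y : Set V} (hY : Y ⊆ X \ (N ∪ K)) : Y ⊆ X \ N ∧ Disjoint Y K := by
  refine ⟨fun y hy => ⟨(hY hy).1, fun h => (hY hy).2 (Or.inl h)⟩, ?_⟩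
  rw [Set.disjoint_left]
  exact fun y hy h => (hY hy).2 (Or.inr h)

/-- sets meeting `UU` have at least three boundary edges after adding `K` -/
lemma add_meet {K : Set V} (hK : Mx G X N K) (hu : Unc G X N K) {Y : Set V}
    (hY : Y ⊆ X \ (N ∪ K)) (hne : (Y ∩ UU G X N).Nonempty) :
    3 ≤ fn G (N ∪ K) Y ∧
      (2 ≤ ed G K (Y ∩ UU G X N) → fn G (N ∪ K) Y ≤ 3 → LL G X N (Y ∩ UU G X N)) := by
  obtain ⟨hY1, hd⟩ := sub_add hY
  have h1 := fn_add (G := G) (sub_O hY1) (sub_O hK.1.1) hd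
  have h2 := C.mx_edge hK hY1 hd.symm
  rw [ed_comm Y K, h2] at h1
  rcases ar_cases (ed G K (Y ∩ UU G X N)) with hc | hc
  · have h3 : ed G K (Y ∩ UU G X N) = 2 :=
      le_antisymm ((ed_mono Subset.rfl Set.inter_subset_right).trans (C.mx_two hK).le) hc
    have h4 := fn_union (G := G) (sub_O hY1) (sub_O hK.1.1) hd
    rw [ed_comm Y K, h2, h3, hK.1.2.2] at h4
    rw [h3] at h1
    have h5 := ar15 h1 h4
    have hs : Y ∪ K ⊆ X \ N := Set.union_subset hY1 hK.1.1
    have e : (Y ∪ K) ∩ UU G X N = Y ∩ UU G X N := by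
      rw [Set.union_inter_distrib_right, Set.disjoint_iff_inter_eq_empty.1 (mx_U hK.1),
        Set.union_empty]
    have h6 := C.three hs (by rw [e]; exact hne)
    rw [h5] at h6
    refine ⟨h6, fun _ h7 => ?_⟩
    have h8 := C.LL_of hs (by rw [e]; exact hne) (by rw [h5]; exact h7)
    rw [e] at h8
    exact h8
  · refine ⟨?_, fun h => absurd (h.trans hc) (by norm_num)⟩
    rcases eq_or_ne (ed G K (Y ∩ UU G X N)) 0 with h0 | h0
    · rw [h0, add_zero] at h1
      rw [← h1]
      exact C.three hY1 hne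
    · have h3 : ed G K (Y ∩ UU G X N) = 1 := le_antisymm hc (ar14 h0)
      rw [h3] at h1
      apply ar16 h1
      intro h4
      exact hu _ (C.LL_of hY1 hne h4) h3

/-- sets not meeting `UU` -/
lemma add_miss {K : Set V} (hK : Mx G X N K) {Y : Set V}
    (hY : Y ⊆ X \ (N ∪ K)) (hne : ¬ (Y ∩ UU G X N).Nonempty) :
    fn G (N ∪ K) Y = fn G N Y := by
  obtain ⟨hY1, hd⟩ := sub_add hY
  have h1 := fn_add (G := G) (sub_O hY1) (sub_O hK.1.1) hd
  have h2 := C.mx_edge hK hY1 hd.symm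
  rw [Set.not_nonempty_iff_eq_empty.1 hne, ed_empty_right, ed_comm] at h2
  rw [h2, add_zero] at h1
  exact h1.symm

lemma add {K : Set V} (hK : Mx G X N K) (hu : Unc G X N K) : Cfg G X X1 (N ∪ K) := by
  have hl := C.loc K hK.1.1 hK.1.2.1 hK.1.2.2
  refine ⟨C.xc, C.h4, C.xx, C.far1, C.r0, C.ne.mono Set.subset_union_left,
    Set.union_subset C.nn hl.1, ?_, ?_, ?_, ?_, ?_⟩
  · rw [degN (sub_O hK.1.1), hK.1.2.2]
    have h1 : ed G N (Nᶜ \ K) ≤ ed G N Nᶜ := ed_mono Subset.rfl Set.diff_subset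
    have h2 : ed G N (Nᶜ \ K) ≠ ⊤ := ne_top_of_le_ne_top C.fin h1
    exact WithTop.add_ne_top.2 ⟨by have := ENat.natCast_ne_top 2; exact_mod_cast this, h2⟩
  · rw [ed_eq_zero]
    rintro x (hx | hx) y hy
    · exact ed_eq_zero.1 C.far x hx y hy
    · exact ed_eq_zero.1 hl.2 x hx y hy
  · -- TC
    have eN : (N ∪ K)ᶜ = Nᶜ \ K := by rw [Set.compl_union]; rfl
    have hKf : ed G K (N ∪ K)ᶜ = 2 := by rw [eN]; exact hK.1.2.2
    have key : ∀ R : Set V, R ⊆ K → R.Nonempty → 2 ≤ ed G R ((N ∪ K) \ R) := by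
      intro R hR hRn
      have h1 := C.h4 R hRn (C.compl_ne (hR.trans (sub_O hK.1.1)))
      have e : Rᶜ = ((N ∪ K) \ R) ∪ (N ∪ K)ᶜ := by
        ext x
        simp only [mem_compl_iff, mem_union, mem_diff]
        constructor
        · intro h
          by_cases hx : x ∈ N ∨ x ∈ K
          · exact Or.inl ⟨hx, h⟩
          · exact Or.inr hx
        · rintro (⟨_, h⟩ | h)
          · exact h
          · exact fun h' => h (Or.inr (hR h'))
      have d : Disjoint ((N ∪ K) \ R) (N ∪ K)ᶜ := by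
        rw [Set.disjoint_left]; rintro x ⟨h1, _⟩ h2; exact h2 h1
      rw [e, ed_union_right R d] at h1
      exact ar6 h1 ((ed_mono hR Subset.rfl).trans hKf.le)
    intro S hS hSn hSc
    by_cases h1 : (S ∩ N).Nonempty
    · by_cases h2 : (N \ S).Nonempty
      · have h3 := C.tcN (S ∩ N) Set.inter_subset_right h1 (by
          rw [Set.diff_inter, Set.diff_self, Set.union_empty]; exact h2)
        refine h3.trans (ed_mono Set.inter_subset_left ?_)
        rw [Set.diff_inter, Set.diff_self, Set.union_empty]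
        exact Set.diff_subset_diff_left Set.subset_union_left
      · -- the complement is inside `K`
        have hNS : N ⊆ S := Set.diff_eq_empty.1 (Set.not_nonempty_iff_eq_empty.1 h2)
        have hsub : (N ∪ K) \ S ⊆ K := by
          rintro x ⟨h3 | h3, h4⟩
          · exact absurd (hNS h3) h4
          · exact h3
        have h3 := key _ hsub hSc
        rw [Set.diff_diff_cancel_left hS, ed_comm] at h3
        exact h3
    · have hsub : S ⊆ K := by
        intro x hx
        rcases hS hx with h3 | h3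
        · exact absurd ⟨x, hx, h3⟩ h1
        · exact h3
      exact key S hsub hSn
  · intro S hS hSn
    by_cases h1 : (S ∩ UU G X N).Nonempty
    · exact le_trans (by norm_num) (C.add_meet hK hu hS h1).1
    · rw [C.add_miss hK hS h1]
      exact C.two S (sub_add hS).1 hSn
  · intro S hS hSn h2
    have h1 : ¬ (S ∩ UU G X N).Nonempty := by
      intro h1
      have := (C.add_meet hK hu hS h1).1
      rw [h2] at this
      exact absurd this (by norm_num)
    rw [C.add_miss hK hS h1] at h2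
    exact C.loc S (sub_add hS).1 hSn h2

lemma add_UU {K : Set V} (hK : Mx G X N K) (hu : Unc G X N K) :
    UU G X (N ∪ K) = UU G X N := by
  ext x
  constructor
  · rintro ⟨hx, h⟩
    have hx1 : x ∈ X \ N := ⟨hx.1, fun h' => hx.2 (Or.inl h')⟩
    rcases C.cover hx1 with h1 | ⟨K', hK', hxK'⟩
    · exact h1
    · exfalso
      have hne : K ≠ K' := by rintro rfl; exact hx.2 (Or.inr hxK')
      have hd := (C.mx_disj hK hK' hne).1
      have hs : K' ⊆ X \ (N ∪ K) := by
        intro y hy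
        refine ⟨(hK'.1.1 hy).1, ?_⟩
        rintro (h' | h')
        · exact (hK'.1.1 hy).2 h'
        · exact Set.disjoint_left.1 hd h' hy
      apply h K' ⟨hs, hK'.1.2.1, ?_⟩ hxK'
      rw [C.add_miss hK hs, hK'.1.2.2]
      rintro ⟨y, hy, hyU⟩
      exact Set.disjoint_left.1 (mx_U hK'.1) hy hyU
  · intro hx
    refine ⟨⟨hx.1.1, ?_⟩, ?_⟩
    · rintro (h | h)
      · exact hx.1.2 h
      · exact Set.disjoint_left.1 (mx_U hK.1) h hx
    · intro Y hY hxY
      have h1 := (C.add_meet hK hu hY.1 ⟨x, hxY, hx⟩).1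
      rw [hY.2.2] at h1
      exact absurd h1 (by norm_num)

omit C in
lemma fn_sUnion (M : Finset (Set V)) (hM : ∀ K ∈ M, K ⊆ X \ N)
    (hd : ∀ K ∈ M, ∀ K' ∈ M, K ≠ K' → Disjoint K K' ∧ ed G K K' = 0) :
    fn G N (⋃₀ (M : Set (Set V))) = ∑ K ∈ M, fn G N K := by
  classical
  induction M using Finset.induction_on with
  | empty =>
    simp only [Finset.coe_empty, Set.sUnion_empty, Finset.sum_empty]
    exact ed_empty_left _
  | insert K M hKM ih =>
    have ih' := ih (fun K' hK' => hM K' (Finset.mem_insert_of_mem hK'))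
      (fun K1 h1 K2 h2 => hd K1 (Finset.mem_insert_of_mem h1) K2 (Finset.mem_insert_of_mem h2))
    have hK := hM K (Finset.mem_insert_self _ _)
    have hne : ∀ K' ∈ M, K ≠ K' := by
      rintro K' hK' rfl
      exact hKM hK'
    have hsub : ⋃₀ (M : Set (Set V)) ⊆ X \ N :=
      Set.sUnion_subset fun K' hK' => hM K' (Finset.mem_insert_of_mem hK')
    have hdis : Disjoint K (⋃₀ (M : Set (Set V))) := by
      rw [Set.disjoint_sUnion_right]
      intro K' hK'
      exact (hd K (Finset.mem_insert_self _ _) K' (Finset.mem_insert_of_mem hK')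
        (hne K' hK')).1
    have h0 : ed G K (⋃₀ (M : Set (Set V))) = 0 := by
      rw [ed_eq_zero]
      rintro x hx y ⟨K', hK', hy⟩
      exact ed_eq_zero.1 (hd K (Finset.mem_insert_self _ _) K' (Finset.mem_insert_of_mem hK')
        (hne K' hK')).2 x hx y hy
    have h1 := fn_union (G := G) (sub_O hK) (sub_O hsub) hdis
    rw [h0, mul_zero, add_zero] at h1
    rw [Finset.coe_insert, Set.sUnion_insert, h1, ih', Finset.sum_insert hKM]

omit C in
lemma sum_two (M : Finset (Set V)) (g : Set V → ℕ∞) (h : ∀ K ∈ M, 2 ≤ g K) :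
    2 * (M.card : ℕ∞) ≤ ∑ K ∈ M, g K := by
  calc 2 * (M.card : ℕ∞) = ∑ K ∈ M, (2 : ℕ∞) := by
        rw [Finset.sum_const, nsmul_eq_mul, mul_comm]
    _ ≤ _ := Finset.sum_le_sum h

/-- the criterion -/
lemma crit (h2 : 2 ≤ ed G (UU G X N) N)
    (h3 : ∀ Y ⊆ X \ N, fn G N Y = 3 → ed G (UU G X N \ Y) N ≠ 0) : Good G X N := by
  classical
  intro M hM hd
  set Q := ⋃₀ (M : Set (Set V)) with hQ
  have hQs : Q ⊆ X \ N := Set.sUnion_subset fun K hK => (hM K hK).1
  rw [degN (sub_O hQs), hQ, fn_sUnion M (fun K hK => (hM K hK).1) hd, ← hQ]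
  have hg : ∀ K ∈ M, 2 ≤ fn G N K := fun K hK => C.two K (hM K hK).1 (hM K hK).2
  -- points of `UU` are not in pieces
  have hpt : ∀ K ∈ M, fn G N K = 2 → ∀ x ∈ UU G X N, x ∉ K := fun K hK h x hx =>
    hx.2 K ⟨(hM K hK).1, (hM K hK).2, h⟩
  by_cases hall : ∀ K ∈ M, fn G N K = 2
  · have h1 : ed G (UU G X N) N ≤ ed G N (Nᶜ \ Q) := by
      rw [ed_comm N]
      apply ed_mono _ Subset.rfl
      intro x hx
      refine ⟨hx.1.2, ?_⟩
      rintro ⟨K, hK, hxK⟩
      exact hpt K hK (hall K hK) x hx hxK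
    exact add_le_add (sum_two M _ hg) (h2.trans h1)
  · push Not at hall
    obtain ⟨K₀, hK₀, hne⟩ := hall
    have e1 : ∑ K ∈ M, fn G N K = fn G N K₀ + ∑ K ∈ M.erase K₀, fn G N K :=
      (Finset.add_sum_erase M _ hK₀).symm
    have e2 : M.card = (M.erase K₀).card + 1 := (Finset.card_erase_add_one hK₀).symm
    have hg' : ∀ K ∈ M.erase K₀, 2 ≤ fn G N K := fun K hK => hg K (Finset.mem_of_mem_erase hK)
    rw [e1, e2]
    by_cases h4 : 4 ≤ fn G N K₀
    · calc 2 * (((M.erase K₀).card + 1 : ℕ) : ℕ∞) + 2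
          = 4 + 2 * ((M.erase K₀).card : ℕ∞) + 0 := by push_cast; ring
        _ ≤ fn G N K₀ + ∑ K ∈ M.erase K₀, fn G N K + ed G N (Nᶜ \ Q) :=
          add_le_add (add_le_add h4 (sum_two _ _ hg')) zero_le
    · have h5 := ar18 (hg K₀ hK₀) hne h4
      by_cases hall2 : ∀ K ∈ M.erase K₀, fn G N K = 2
      · have h6 : 1 ≤ ed G N (Nᶜ \ Q) := by
          apply ar14
          intro h7
          obtain ⟨x, hx, y, hy, hxy⟩ := ed_ne_zero (h3 K₀ (hM K₀ hK₀).1 h5)
          refine ed_eq_zero.1 h7 y hy x ⟨hx.1.1.2, ?_⟩ hxy.symm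
          rintro ⟨K, hK, hxK⟩
          by_cases hKK : K = K₀
          · exact hx.2 (hKK ▸ hxK)
          · exact hpt K hK (hall2 K (Finset.mem_erase.2 ⟨hKK, hK⟩)) x hx.1 hxK
        calc 2 * (((M.erase K₀).card + 1 : ℕ) : ℕ∞) + 2
            = 3 + 2 * ((M.erase K₀).card : ℕ∞) + 1 := by push_cast; ring
          _ ≤ fn G N K₀ + ∑ K ∈ M.erase K₀, fn G N K + ed G N (Nᶜ \ Q) :=
            add_le_add (add_le_add h5.ge (sum_two _ _ hg')) h6
      · push Not at hall2
        obtain ⟨K₁, hK₁, hne1⟩ := hall2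
        have e3 : ∑ K ∈ M.erase K₀, fn G N K =
            fn G N K₁ + ∑ K ∈ (M.erase K₀).erase K₁, fn G N K :=
          (Finset.add_sum_erase _ _ hK₁).symm
        have e4 : (M.erase K₀).card = ((M.erase K₀).erase K₁).card + 1 :=
          (Finset.card_erase_add_one hK₁).symm
        have hg'' : ∀ K ∈ (M.erase K₀).erase K₁, 2 ≤ fn G N K :=
          fun K hK => hg' K (Finset.mem_of_mem_erase hK)
        have h6 : 3 ≤ fn G N K₁ := by
          by_contra h7
          apply hne1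
          have h8 : ¬ 4 ≤ fn G N K₁ := fun h => h7 (le_trans (by norm_num) h)
          by_contra h9
          exact h7 (ar18 (hg' K₁ hK₁) h9 h8).ge
        rw [e3, e4]
        calc 2 * (((((M.erase K₀).erase K₁).card + 1) + 1 : ℕ) : ℕ∞) + 2
            = 3 + (3 + 2 * (((M.erase K₀).erase K₁).card : ℕ∞)) + 0 := by push_cast; ring
          _ ≤ fn G N K₀ + (fn G N K₁ + ∑ K ∈ (M.erase K₀).erase K₁, fn G N K) +
              ed G N (Nᶜ \ Q) :=
            add_le_add (add_le_add h5.ge (add_le_add h6 (sum_two _ _ hg''))) zero_le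

/-- what is needed of the piece -/
def Wit (G : SimpleGraph V) (X N K : Set V) : Prop := Mx G X N K ∧ Unc G X N K ∧
  ∀ S, LL G X N S → 2 ≤ ed G K S → ed G (UU G X N \ S) N ≠ 0

lemma good_add {K : Set V} (h : Wit G X N K) : Good G X (N ∪ K) := by
  obtain ⟨hK, hu, hS⟩ := h
  have C' := C.add hK hu
  have eU := C.add_UU hK hu
  have h2 := C.mx_two hK
  apply C'.crit
  · rw [eU]
    calc (2 : ℕ∞) = ed G (UU G X N) K := by rw [ed_comm]; exact h2.symm
      _ ≤ _ := ed_mono Subset.rfl Set.subset_union_right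
  · rw [eU]
    intro Y hY hY3 h0
    have h3 : ed G K (UU G X N \ Y) = 0 := by
      rw [ed_comm]; exact ed_zero_mono h0 Subset.rfl Set.subset_union_right
    have e : UU G X N \ (Y ∩ UU G X N) = UU G X N \ Y := by
      rw [Set.diff_inter, Set.diff_self, Set.union_empty]
    have h4 : 2 ≤ ed G K (Y ∩ UU G X N) := by
      rw [ed_split_right K (Set.inter_subset_right : Y ∩ UU G X N ⊆ UU G X N), e, h3,
        add_zero] at h2
      exact h2.ge
    have hne : (Y ∩ UU G X N).Nonempty := by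
      by_contra hcon
      rw [Set.not_nonempty_iff_eq_empty.1 hcon, ed_empty_right] at h4
      exact absurd h4 (by norm_num)
    have h5 := (C.add_meet hK hu hY hne).2 h4 hY3.le
    apply hS _ h5 h4
    rw [e]
    exact ed_zero_mono h0 Subset.rfl Set.subset_union_left

/-- case 2a -/
lemma wit_a (hD : ed G (UU G X N) N ≠ 0)
    (h1 : ∀ K, Mx G X N K → ∃ Y, LL G X N Y ∧ ed G K Y ≠ 0) : ∀ (n : ℕ) (W : Set V),
    LL G X N W → ed G (UU G X N \ W) N = 0 →
    ({K | Mx G X N K}).ncard ≤ ({K | Mx G X N K ∧ ed G K W ≠ 0}).ncard + n →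
    ∃ K, Wit G X N K := by
  have hfin : ∀ W, ({K | Mx G X N K ∧ ed G K W ≠ 0}).Finite := fun W =>
    C.mx_fin.subset fun K hK => hK.1
  -- increasing `W`
  have hinc : ∀ W W' K : Set V, W ⊆ W' → Mx G X N K → ed G K W = 0 → ed G K W' ≠ 0 →
      ({K | Mx G X N K ∧ ed G K W ≠ 0}).ncard < ({K | Mx G X N K ∧ ed G K W' ≠ 0}).ncard := by
    intro W W' K hW hK h2 h3
    apply Set.ncard_lt_ncard _ (hfin W')
    refine ⟨fun K' hK' => ⟨hK'.1, fun h4 => hK'.2 (ed_zero_mono h4 Subset.rfl hW)⟩, ?_⟩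
    intro hle
    exact (hle (⟨hK, h3⟩ : K ∈ ({K | Mx G X N K ∧ ed G K W' ≠ 0} : Set (Set V)))).2 h2
  have hcov : ∀ W W' : Set V, ed G (UU G X N \ W) N = 0 → ed G (UU G X N \ (W ∪ W')) N = 0 :=
    fun W W' h => ed_zero_mono h (Set.diff_subset_diff_right Set.subset_union_left) Subset.rfl
  intro n
  induction n with
  | zero =>
    intro W hW h0 hn
    exfalso
    obtain ⟨K, hK, hKW⟩ := C.untouched hW h0
    have : ({K | Mx G X N K ∧ ed G K W ≠ 0}).ncard < ({K | Mx G X N K}).ncard := by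
      apply Set.ncard_lt_ncard _ C.mx_fin
      refine ⟨fun K' hK' => hK'.1, fun hle => ?_⟩
      exact (hle (show K ∈ {K | Mx G X N K} from hK)).2 hKW
    omega
  | succ n ih =>
    intro W hW h0 hn
    obtain ⟨K, hK, hKW⟩ := C.untouched hW h0
    obtain ⟨S, hS, hKS⟩ := h1 K hK
    by_cases hm : (W ∩ S).Nonempty
    · have h2 := hinc W (W ∪ S) K Set.subset_union_left hK hKW (fun h =>
        hKS (ed_zero_mono h Subset.rfl Set.subset_union_right))
      exact ih (W ∪ S) (C.LL_both hW hS hm).2 (hcov W S h0) (by omega)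
    · have hSW : S ⊆ UU G X N \ W := fun x hx => ⟨hS.1 hx, fun h => hm ⟨x, h, hx⟩⟩
      have hSN : ed G S N = 0 := ed_zero_mono h0 hSW Subset.rfl
      obtain ⟨K', hK', hK'S, hu⟩ := C.exists_unc _ S hS hSN le_rfl
      by_cases hw : ∀ S, LL G X N S → 2 ≤ ed G K' S → ed G (UU G X N \ S) N ≠ 0
      · exact ⟨K', hK', hu, hw⟩
      · push Not at hw
        obtain ⟨S', hS', h3, h4⟩ := hw
        obtain ⟨t, ht, y, hy, hty⟩ := ed_ne_zero hD
        have htW : t ∈ W := by
          by_contra h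
          exact ed_eq_zero.1 h0 t ⟨ht, h⟩ y hy hty
        have htS : t ∈ S' := by
          by_contra h
          exact ed_eq_zero.1 h4 t ⟨ht, h⟩ y hy hty
        have hWS : W ⊆ UU G X N \ S := fun x hx => ⟨hW.1 hx, fun h => hm ⟨x, hx, h⟩⟩
        have hK'W : ed G K' W = 0 := ed_zero_mono (C.ins_other hK' hS.1 hK'S) Subset.rfl hWS
        have h2 := hinc W (W ∪ S') K' Set.subset_union_left hK' hK'W (fun h => by
          have h5 := ed_zero_mono h Subset.rfl (Set.subset_union_right : S' ⊆ W ∪ S')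
          rw [h5] at h3
          exact absurd h3 (by norm_num))
        exact ih (W ∪ S') (C.LL_both hW hS' ⟨t, htW, htS⟩).2 (hcov W S' h0) (by omega)

lemma exists_good_D (hD : ed G (UU G X N) N ≠ 0) :
    ∃ N', N ⊆ N' ∧ Cfg G X X1 N' ∧ Good G X N' := by
  by_cases hg : Good G X N
  · exact ⟨N, Subset.rfl, C, hg⟩
  have hwit : ∃ K, Wit G X N K := by
    by_cases h1 : ∃ K, Mx G X N K ∧ ∀ Y, LL G X N Y → ed G K Y = 0
    · obtain ⟨K, hK, h1⟩ := h1
      refine ⟨K, hK, fun Y hY => by rw [h1 Y hY]; norm_num, fun S hS h2 => ?_⟩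
      rw [h1 S hS] at h2
      exact absurd h2 (by norm_num)
    push Not at h1
    by_cases h2 : ∃ W, LL G X N W ∧ ed G (UU G X N \ W) N = 0
    · obtain ⟨W, hW, h0⟩ := h2
      exact C.wit_a hD h1 _ W hW h0 le_add_self
    push Not at h2
    have hle : ed G (UU G X N) N ≤ 1 := by
      rcases ar_cases (ed G (UU G X N) N) with h3 | h3
      · exfalso
        apply hg
        apply C.crit h3
        intro Y hY hY3 h0
        have e : UU G X N \ (Y ∩ UU G X N) = UU G X N \ Y := by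
          rw [Set.diff_inter, Set.diff_self, Set.union_empty]
        obtain ⟨t, ht, y, hy, hty⟩ := ed_ne_zero hD
        have htY : t ∈ Y := by
          by_contra h
          exact ed_eq_zero.1 h0 t ⟨ht, h⟩ y hy hty
        apply h2 _ (C.LL_of hY ⟨t, htY, ht⟩ hY3.le)
        rw [e]
        exact h0
      · exact h3
    have hex : ∃ K, Mx G X N K := by
      by_contra hcon
      push Not at hcon
      have h4 := C.h4 N C.ne (by
        obtain ⟨x, hx⟩ := C.xc
        exact ⟨x, fun h => hx (C.nX h)⟩)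
      have h5 : ed G N Nᶜ ≤ ed G N (UU G X N) := by
        unfold ed
        apply Set.encard_le_encard
        rintro ⟨x, y⟩ ⟨hx, hy, hxy⟩
        refine ⟨hx, ?_, hxy⟩
        have hy1 : y ∈ X1 := by
          by_contra h
          exact ed_eq_zero.1 C.far x hx y h hxy
        rcases C.cover ⟨C.xx hy1, hy⟩ with h | ⟨K, hK, _⟩
        · exact h
        · exact absurd hK (hcon K)
      rw [ed_comm N (UU G X N)] at h5
      exact absurd (h4.trans (h5.trans hle)) (by norm_num)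
    obtain ⟨K, hK⟩ := hex
    obtain ⟨S, hS, -⟩ := h1 K hK
    have hSN : ed G S N = 0 := by
      rw [ed_split_left N hS.1] at hle
      exact ar17 hle (h2 S hS)
    obtain ⟨K', hK', hK'S, hu⟩ := C.exists_unc _ S hS hSN le_rfl
    exact ⟨K', hK', hu, fun S' hS' _ => h2 S' hS'⟩
  obtain ⟨K, hK⟩ := hwit
  exact ⟨N ∪ K, Set.subset_union_left, C.add hK.1 hK.2.1, C.good_add hK⟩

theorem exists_good : ∃ N', N ⊆ N' ∧ Cfg G X X1 N' ∧ Good G X N' := by
  by_cases hD : ed G (UU G X N) N = 0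
  · have hex : ∃ K, Mx G X N K := by
      have h4 := C.h4 N C.ne (by
        obtain ⟨x, hx⟩ := C.xc
        exact ⟨x, fun h => hx (C.nX h)⟩)
      have h5 : ed G N Nᶜ ≠ 0 := by
        intro h0
        rw [h0] at h4
        exact absurd h4 (by norm_num)
      obtain ⟨x, hx, y, hy, hxy⟩ := ed_ne_zero h5
      have hy1 : y ∈ X1 := by
        by_contra h
        exact ed_eq_zero.1 C.far x hx y h hxy
      rcases C.cover ⟨C.xx hy1, hy⟩ with h | ⟨K, hK, _⟩
      · exact absurd hxy.symm (ed_eq_zero.1 hD y h x hx)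
      · exact ⟨K, hK⟩
    have hunc : ∃ K, Mx G X N K ∧ Unc G X N K := by
      by_cases hL : ∃ S, LL G X N S
      · obtain ⟨S, hS⟩ := hL
        obtain ⟨K, h1, _, h2⟩ := C.exists_unc _ S hS (ed_zero_mono hD hS.1 Subset.rfl) le_rfl
        exact ⟨K, h1, h2⟩
      · obtain ⟨K, hK⟩ := hex
        exact ⟨K, hK, fun Y hY => absurd ⟨Y, hY⟩ hL⟩
    obtain ⟨K, hK, hu⟩ := hunc
    have C' := C.add hK hu
    obtain ⟨N', h1, h2, h3⟩ := C'.exists_good_D (by
      rw [C.add_UU hK hu]
      intro h0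
      have h1 := ed_zero_mono h0 Subset.rfl (Set.subset_union_right : K ⊆ N ∪ K)
      have h2 := C.mx_two hK
      rw [ed_comm, h1] at h2
      exact absurd h2 (by norm_num))
    exact ⟨N', Set.subset_union_left.trans h1, h2, h3⟩
  · exact C.exists_good_D hD

/-- the rest of the ring is two-edge-connected -/
lemma tcB : TC G (X \ N) := by
  intro S hS hSn hRn
  set R := (X \ N) \ S with hR
  have hR0 : X \ X1 ⊆ X \ N := Set.diff_subset_diff_right C.nn
  have hlow : ∀ S R : Set V, S ⊆ X \ N → R = (X \ N) \ S → S.Nonempty → S ⊆ X1 →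
      2 ≤ ed G S R := by
    intro S R hS hR hSn hS1
    have h1 := C.two S hS hSn
    have e : Nᶜ \ S = R ∪ Xᶜ := by
      ext x
      rw [hR]
      simp only [mem_diff, mem_union, mem_compl_iff]
      constructor
      · rintro ⟨h1, h2⟩
        by_cases hx : x ∈ X
        · exact Or.inl ⟨⟨hx, h1⟩, h2⟩
        · exact Or.inr hx
      · rintro (⟨⟨_, h1⟩, h2⟩ | h)
        · exact ⟨h1, h2⟩
        · exact ⟨fun h' => h (C.nX h'), fun h' => h (hS h').1⟩
    have d : Disjoint R Xᶜ := by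
      rw [Set.disjoint_left, hR]; rintro x ⟨⟨h1, _⟩, _⟩ h2; exact h2 h1
    unfold fn at h1
    rw [e, ed_union_right S d, ed_zero_mono C.far1 hS1 Subset.rfl, add_zero] at h1
    exact h1
  by_cases h1 : (S ∩ (X \ X1)).Nonempty
  · by_cases h2 : (R ∩ (X \ X1)).Nonempty
    · have e : (X \ X1) \ (S ∩ (X \ X1)) = R ∩ (X \ X1) := by
        ext x
        rw [hR]
        simp only [mem_diff, mem_inter_iff, not_and]
        constructor
        · rintro ⟨h3, h4⟩
          exact ⟨⟨⟨h3.1, fun h => h3.2 (C.nn h)⟩, fun h => h4 h h3.1 h3.2⟩, h3⟩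
        · rintro ⟨⟨_, h4⟩, h5⟩
          exact ⟨h5, fun h => absurd h h4⟩
      have h3 := C.r0 (S ∩ (X \ X1)) Set.inter_subset_right h1 (by rw [e]; exact h2)
      rw [e] at h3
      exact h3.trans (ed_mono Set.inter_subset_left Set.inter_subset_left)
    · have hRX : R ⊆ X1 := by
        intro x hx
        by_contra h
        exact h2 ⟨x, hx, hx.1.1, h⟩
      rw [ed_comm]
      exact hlow R S Set.diff_subset (Set.diff_diff_cancel_left hS).symm hRn hRX
  · have hSX : S ⊆ X1 := by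
      intro x hx
      by_contra h
      exact h1 ⟨x, hx, (hS hx).1, h⟩
    exact hlow S R hS hR hSn hSX

end Cfg

end Pool.H66.HE
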