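import Pool.Agent.Helper66.HE.Hub
import Pool.Agent.Helper70.HE.Skel

/-! # Existence of hubs in the form needed for the system of rings -/

open Set

namespace Pool.H66.HE

open Pool.H66.HC (prs prs_mono prs_swap Four IsComp ce compOf mem_compOf isComp_compOf)

open Pool.H17.HCC (TCi)

open Pool.H70.HE (HubS tci_iff four_ed ed_ne_top)

universe u

variable {V : Type u} {G : SimpleGraph V} {X X1 N : Set V}

/-- the initial configuration -/
theorem cfg_init (h4 : ∀ S : Set V, S.Nonempty → Sᶜ.Nonempty → 4 ≤ ed G S Sᶜ) (hN : N ⊆ X1)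
    (hX1 : X1 ⊆ X) (hNn : N.Nonempty) (hXc : Xᶜ.Nonempty) (hR0n : (X \ X1).Nonempty)
    (hR1n : (X1 \ N).Nonempty) (tN : TC G N) (t0 : TC G (X \ X1)) (t1 : TC G (X1 \ N))
    (hfin : ed G N Nᶜ ≠ ⊤) (f1 : ed G N X1ᶜ = 0) (f2 : ed G X1 Xᶜ = 0) : Cfg G X X1 N := by
  have hX1c : X1ᶜ.Nonempty := hXc.mono (Set.compl_subset_compl.2 hX1)
  have hX1n : X1.Nonempty := hNn.mono hN
  -- sets containing the outer ring
  have big0 : ∀ S : Set V, S ⊆ X \ N → X \ X1 ⊆ S → 4 ≤ fn G N S := by
    intro S hS h0
    have h1 := h4 X (hX1n.mono hX1) hXc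
    rw [ed_split_left Xᶜ hX1, f2, zero_add] at h1
    refine h1.trans (ed_mono h0 ?_)
    intro x hx
    exact ⟨fun h => hx (hX1 (hN h)), fun h => hx (hS h).1⟩
  -- the inner ring
  have big1 : 4 ≤ fn G N (X1 \ N) := by
    have h1 := h4 X1 hX1n hX1c
    rw [ed_split_left X1ᶜ hN, f1, zero_add] at h1
    refine h1.trans (ed_mono Subset.rfl ?_)
    intro x hx
    exact ⟨fun h => hx (hN h), fun h => hx h.1⟩
  have split : ∀ S R : Set V, R ⊆ X \ N → TC G R → (S ∩ R).Nonempty → (R \ S).Nonempty →
      2 ≤ ed G S (R \ S) := by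
    intro S R hR hT h1 h2
    have h3 := hT (S ∩ R) Set.inter_subset_right h1 (by
      rw [Set.diff_inter, Set.diff_self, Set.union_empty]; exact h2)
    rw [Set.diff_inter, Set.diff_self, Set.union_empty] at h3
    exact h3.trans (ed_mono Set.inter_subset_left Subset.rfl)
  have s0 : X \ X1 ⊆ X \ N := Set.diff_subset_diff_right hN
  have s1 : X1 \ N ⊆ X \ N := Set.diff_subset_diff_left hX1
  have hsub : ∀ S R : Set V, R ⊆ X \ N → R \ S ⊆ Nᶜ \ S := fun S R hR x hx =>
    ⟨(hR hx.1).2, hx.2⟩
  refine ⟨hXc, h4, hX1, f2, t0, hNn, hN, hfin, f1, tN, ?_, ?_⟩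
  · intro S hS hSn
    by_cases a1 : (S ∩ (X \ X1)).Nonempty
    · by_cases a2 : ((X \ X1) \ S).Nonempty
      · exact (split S _ s0 t0 a1 a2).trans (ed_mono Subset.rfl (hsub S _ s0))
      · have h0 : X \ X1 ⊆ S := Set.diff_eq_empty.1 (Set.not_nonempty_iff_eq_empty.1 a2)
        exact le_trans (by norm_num) (big0 S hS h0)
    · have hS1 : S ⊆ X1 \ N := by
        intro x hx
        refine ⟨?_, (hS hx).2⟩
        by_contra h
        exact a1 ⟨x, hx, (hS hx).1, h⟩
      by_cases a2 : ((X1 \ N) \ S).Nonempty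
      · have h1 : (S ∩ (X1 \ N)).Nonempty := by
          rw [Set.inter_eq_left.2 hS1]; exact hSn
        exact (split S _ s1 t1 h1 a2).trans (ed_mono Subset.rfl (hsub S _ s1))
      · have h0 : X1 \ N ⊆ S := Set.diff_eq_empty.1 (Set.not_nonempty_iff_eq_empty.1 a2)
        have e : S = X1 \ N := hS1.antisymm h0
        rw [e]
        exact le_trans (by norm_num) big1
  · intro K hK hKn h2
    by_cases a1 : (K ∩ (X \ X1)).Nonempty
    · exfalso
      by_cases a2 : ((X \ X1) \ K).Nonempty
      · have b1 := split K _ s0 t0 a1 a2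
        have b2 : ed G K (Nᶜ \ K) = 2 := h2
        rw [ed_split_right K (hsub K _ s0)] at b2
        have b3 := ar7 b2 b1
        by_cases a3 : (K ∩ (X1 \ N)).Nonempty
        · by_cases a4 : ((X1 \ N) \ K).Nonempty
          · have b4 := split K _ s1 t1 a3 a4
            have b5 : ed G K ((X1 \ N) \ K) = 0 := by
              apply ed_zero_mono b3 Subset.rfl
              rintro x ⟨hx1, hx2⟩
              exact ⟨⟨hx1.2, hx2⟩, fun h => h.1.2 hx1.1⟩
            rw [b5] at b4
            exact absurd b4 (by norm_num)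
          · have h0 : X1 \ N ⊆ K := Set.diff_eq_empty.1 (Set.not_nonempty_iff_eq_empty.1 a4)
            have b4 : ed G N (Nᶜ \ K) = 0 := by
              rw [ed_eq_zero]
              rintro x hx y ⟨hy1, hy2⟩ hxy
              have hy3 : y ∈ X1 := by
                by_contra h
                exact ed_eq_zero.1 f1 x hx y h hxy
              exact hy2 (h0 ⟨hy3, hy1⟩)
            have b5 := h4 (N ∪ K) (hNn.mono Set.subset_union_left) (by
              obtain ⟨x, hx⟩ := hXc
              refine ⟨x, ?_⟩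
              rintro (h | h)
              · exact hx (hX1 (hN h))
              · exact hx (hK h).1)
            rw [Cfg.degN (sub_O hK), b4, add_zero, h2] at b5
            exact absurd b5 (by norm_num)
        · have hK0 : K ⊆ X1ᶜ := by
            intro x hx h
            exact a3 ⟨x, hx, h, (hK hx).2⟩
          have b4 : ed G K N = 0 := by
            rw [ed_comm]
            exact ed_zero_mono f1 Subset.rfl hK0
          have b5 := h4 K hKn (by
            obtain ⟨x, hx⟩ := hNn
            exact ⟨x, fun h => (hK h).2 hx⟩)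
          have e : Kᶜ = (Nᶜ \ K) ∪ N := by
            ext x
            simp only [mem_compl_iff, mem_union, mem_diff]
            constructor
            · intro h
              by_cases hx : x ∈ N
              · exact Or.inr hx
              · exact Or.inl ⟨hx, h⟩
            · rintro (⟨_, h⟩ | h)
              · exact h
              · exact fun h' => (hK h').2 h
          have d : Disjoint (Nᶜ \ K) N := by
            rw [Set.disjoint_left]; rintro x ⟨h1, _⟩ h2; exact h1 h2
          have b6 : ed G K (Nᶜ \ K) = 2 := h2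
          rw [e, ed_union_right K d, b4, add_zero, b6] at b5
          exact absurd b5 (by norm_num)
      · have h0 : X \ X1 ⊆ K := Set.diff_eq_empty.1 (Set.not_nonempty_iff_eq_empty.1 a2)
        have h5 := big0 K hK h0
        rw [h2] at h5
        exact absurd h5 (by norm_num)
    · have hK1 : K ⊆ X1 \ N := by
        intro x hx
        refine ⟨?_, (hK hx).2⟩
        by_contra h
        exact a1 ⟨x, hx, (hK hx).1, h⟩
      refine ⟨fun x hx => (hK1 hx).1, ?_⟩
      by_cases a2 : ((X1 \ N) \ K).Nonempty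
      · have h1 : (K ∩ (X1 \ N)).Nonempty := by
          rw [Set.inter_eq_left.2 hK1]; exact hKn
        have b1 := split K _ s1 t1 h1 a2
        have b2 : ed G K (Nᶜ \ K) = 2 := h2
        rw [ed_split_right K (hsub K _ s1)] at b2
        refine ed_zero_mono (ar7 b2 b1) Subset.rfl ?_
        intro x hx
        exact ⟨⟨fun h => hx (hN h), fun h => hx (hK1 h).1⟩, fun h => hx h.1.1⟩
      · exfalso
        have h0 : X1 \ N ⊆ K := Set.diff_eq_empty.1 (Set.not_nonempty_iff_eq_empty.1 a2)
        rw [hK1.antisymm h0] at h2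
        rw [h2] at big1
        exact absurd big1 (by norm_num)

/-- hubs exist -/
theorem hubS (h4 : Four G) : HubS G := by
  intro X X1 N hN hX1 hNn hXc hR0n hR1n tX tX1 tN t0 t1 fX fX1 fN f1 f2
  have e1 : ed G N X1ᶜ = 0 := ed_eq_zero.2 fun x hx y hy hxy => hy (f1 x hx y hxy)
  have e2 : ed G X1 Xᶜ = 0 := ed_eq_zero.2 fun x hx y hy hxy => hy (f2 x hx y hxy)
  have C := cfg_init (G := G) (fun S hS hSc => four_ed h4 hS hSc) hN hX1 hNn hXc hR0n hR1n
    (tci_iff.1 tN) (tci_iff.1 t0) (tci_iff.1 t1) (ed_ne_top.2 fN) e1 e2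
  obtain ⟨N', h1, C', hg⟩ := C.exists_good
  refine ⟨N', h1, C'.nn, ed_ne_top.1 C'.fin, tci_iff.2 C'.tcN, tci_iff.2 C'.tcB, ?_⟩
  intro Q hQ hfin
  by_cases hf : {K | IsComp G Q K}.Finite
  · have hU : ⋃₀ ((hf.toFinset : Finset (Set V)) : Set (Set V)) = Q := by
      rw [Set.Finite.coe_toFinset]
      apply Set.Subset.antisymm
      · exact Set.sUnion_subset fun K hK => hK.sub
      · intro x hx
        exact ⟨compOf G Q x, isComp_compOf hx, mem_compOf hx⟩
    have h2 := hg hf.toFinset (fun K hK => by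
        have hK' : IsComp G Q K := by simpa using hK
        exact ⟨hK'.sub.trans hQ, hK'.ne⟩) (fun K hK K' hK' hne => by
        have k1 : IsComp G Q K := by simpa using hK
        have k2 : IsComp G Q K' := by simpa using hK'
        refine ⟨k1.disjoint k2 hne, ed_eq_zero.2 fun x hx y hy hxy => ?_⟩
        exact Set.disjoint_left.1 (k1.disjoint k2 hne) (k1.closed x hx y (k2.sub hy) hxy) hy)
    rw [hU] at h2
    have h3 : {K | IsComp G Q K}.ncard = hf.toFinset.card := Set.ncard_eq_toFinset_card _ hf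
    have h4' : ed G (N' ∪ Q) (N' ∪ Q)ᶜ = ((ce G (N' ∪ Q) (N' ∪ Q)ᶜ : ℕ) : ℕ∞) := by
      unfold ed ce
      exact (Set.Finite.cast_ncard_eq hfin).symm
    rw [h4', ← h3] at h2
    exact_mod_cast h2
  · rw [Set.Infinite.ncard hf]
    have h5 := h4 (N' ∪ Q) (C'.ne.mono Set.subset_union_left) (by
      obtain ⟨x, hx⟩ := hXc
      refine ⟨x, ?_⟩
      rintro (h | h)
      · exact hx (C'.nX h)
      · exact hx (hQ h).1) hfin
    omega

end Pool.H66.HE
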