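import Pool.Agent.Helper66.HE.Ed
import Pool.Agent.Helper66.HE.Arith

/-! # Hubs: configurations and pieces -/

open Set

namespace Pool.H66.HE

open Pool.H66.HC (prs prs_mono prs_swap)

universe u

variable {V : Type u}

/-- the cut function of the graph without `N` -/
noncomputable def fn (G : SimpleGraph V) (N S : Set V) : ℕ∞ := ed G S (Nᶜ \ S)

/-- the situation: regions `X1 ⊆ X` and a set `N` inside `X1` -/
structure Cfg (G : SimpleGraph V) (X X1 N : Set V) : Prop where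
  xc : Xᶜ.Nonempty
  h4 : ∀ S : Set V, S.Nonempty → Sᶜ.Nonempty → 4 ≤ ed G S Sᶜ
  xx : X1 ⊆ X
  far1 : ed G X1 Xᶜ = 0
  r0 : TC G (X \ X1)
  ne : N.Nonempty
  nn : N ⊆ X1
  fin : ed G N Nᶜ ≠ ⊤
  far : ed G N X1ᶜ = 0
  tcN : TC G N
  two : ∀ S ⊆ X \ N, S.Nonempty → 2 ≤ fn G N S
  loc : ∀ K ⊆ X \ N, K.Nonempty → fn G N K = 2 → K ⊆ X1 ∧ ed G K X1ᶜ = 0

/-- pieces: sets with two boundary edges -/
def Pc (G : SimpleGraph V) (X N K : Set V) : Prop := K ⊆ X \ N ∧ K.Nonempty ∧ fn G N K = 2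

/-- maximal pieces -/
def Mx (G : SimpleGraph V) (X N K : Set V) : Prop :=
  Pc G X N K ∧ ∀ K', Pc G X N K' → K ⊆ K' → K' = K

/-- the vertices in no piece -/
def UU (G : SimpleGraph V) (X N : Set V) : Set V := {x | x ∈ X \ N ∧ ∀ K, Pc G X N K → x ∉ K}

variable {G : SimpleGraph V} {X X1 N : Set V}

lemma fn_sub {S T : Set V} (hS : S ⊆ Nᶜ) (hT : T ⊆ Nᶜ) :
    fn G N (S ∩ T) + fn G N (S ∪ T) ≤ fn G N S + fn G N T := sub_ineq hS hT

lemma fn_posi {S T : Set V} (hS : S ⊆ Nᶜ) (hT : T ⊆ Nᶜ) :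
    fn G N (S \ T) + fn G N (T \ S) ≤ fn G N S + fn G N T := posi_ineq hS hT

lemma fn_union {S T : Set V} (hS : S ⊆ Nᶜ) (hT : T ⊆ Nᶜ) (h : Disjoint S T) :
    fn G N (S ∪ T) + 2 * ed G S T = fn G N S + fn G N T := f_union hS hT h

lemma sub_O {S : Set V} (h : S ⊆ X \ N) : S ⊆ Nᶜ := fun _ hx => (h hx).2

lemma UU_sub : UU G X N ⊆ X \ N := fun _ h => h.1

namespace Cfg

variable (C : Cfg G X X1 N)

include C

lemma nX : N ⊆ X := C.nn.trans C.xx

lemma pc_union {K K' : Set V} (h : Pc G X N K) (h' : Pc G X N K')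
    (hm : (K ∩ K').Nonempty ∨ ed G K K' ≠ 0) : Pc G X N (K ∪ K') := by
  refine ⟨Set.union_subset h.1 h'.1, h.2.1.mono Set.subset_union_left, ?_⟩
  have hU := C.two _ (Set.union_subset h.1 h'.1) (h.2.1.mono Set.subset_union_left)
  by_cases hi : (K ∩ K').Nonempty
  · have h1 := fn_sub (G := G) (sub_O h.1) (sub_O h'.1)
    have h2 := C.two _ (Set.inter_subset_left.trans h.1) hi
    rw [h.2.2, h'.2.2] at h1
    exact ar8 h1 h2 hU
  · have hd : Disjoint K K' := by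
      rw [Set.disjoint_iff_inter_eq_empty]
      exact Set.not_nonempty_iff_eq_empty.1 hi
    have h1 := fn_union (G := G) (sub_O h.1) (sub_O h'.1) hd
    have h2 := hm.resolve_left hi
    rw [h.2.2, h'.2.2] at h1
    exact ar9 h1 h2 hU

lemma exists_mx {K : Set V} (h : Pc G X N K) : ∃ K', Mx G X N K' ∧ K ⊆ K' := by
  obtain ⟨M, hKM, hM⟩ := zorn_subset_nonempty {K' | Pc G X N K'} (by
    intro c hc hch hne
    refine ⟨⋃₀ c, ?_, fun s hs => Set.subset_sUnion_of_mem hs⟩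
    have hsub : ⋃₀ c ⊆ X \ N := Set.sUnion_subset (fun s hs => (hc hs).1)
    have hne' : (⋃₀ c).Nonempty := by
      obtain ⟨s, hs⟩ := hne
      exact (hc hs).2.1.mono (Set.subset_sUnion_of_mem hs)
    refine ⟨hsub, hne', ?_⟩
    have h1 : fn G N (⋃₀ c) ≤ ((2 : ℕ) : ℕ∞) :=
      chain_le hch hne (n := 2) (fun s hs => le_of_eq (hc hs).2.2)
    have h2 := C.two _ hsub hne'
    exact le_antisymm (by exact_mod_cast h1) h2) K h
  refine ⟨M, ⟨hM.prop, fun K' hK' hle => ?_⟩, hKM⟩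
  exact (hM.eq_of_subset hK' hle).symm

lemma mx_disj {K K' : Set V} (h : Mx G X N K) (h' : Mx G X N K') (hne : K ≠ K') :
    Disjoint K K' ∧ ed G K K' = 0 := by
  by_contra hcon
  have hm : (K ∩ K').Nonempty ∨ ed G K K' ≠ 0 := by
    by_contra h2
    push Not at h2
    exact hcon ⟨Set.disjoint_iff_inter_eq_empty.2 h2.1, h2.2⟩
  have hu := C.pc_union h.1 h'.1 hm
  have h1 := h.2 _ hu Set.subset_union_left
  have h2 := h'.2 _ hu Set.subset_union_right
  exact hne (h1.symm.trans h2)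

/-- the degree of a set without `N` -/
lemma deg {S : Set V} (hS : S ⊆ Nᶜ) : ed G S Sᶜ = fn G N S + ed G S N := by
  have e : Sᶜ = (Nᶜ \ S) ∪ N := by
    ext x
    simp only [mem_compl_iff, mem_union, mem_diff]
    constructor
    · intro h
      by_cases hx : x ∈ N
      · exact Or.inr hx
      · exact Or.inl ⟨hx, h⟩
    · rintro (⟨_, h⟩ | h)
      · exact h
      · exact fun h' => hS h' h
  have d : Disjoint (Nᶜ \ S) N := by
    rw [Set.disjoint_left]; rintro x ⟨h1, _⟩ h2; exact h1 h2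
  rw [e, ed_union_right S d]; rfl

lemma compl_ne {S : Set V} (hS : S ⊆ Nᶜ) : Sᶜ.Nonempty := by
  obtain ⟨x, hx⟩ := C.ne
  exact ⟨x, fun h => hS h hx⟩

lemma mx_tau {K : Set V} (h : Pc G X N K) : 2 ≤ ed G K N := by
  have h1 := C.h4 K h.2.1 (C.compl_ne (sub_O h.1))
  rw [C.deg (sub_O h.1), h.2.2, add_comm] at h1
  exact ar6 h1 le_rfl

lemma mx_fin : {K | Mx G X N K}.Finite := by
  have hfin : (prs G N Nᶜ).Finite := by
    have := C.fin
    unfold ed at this
    exact Set.encard_ne_top_iff.1 this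
  have hex : ∀ K : Set V, ∃ p : V × V, Mx G X N K → p ∈ prs G N Nᶜ ∧ p.2 ∈ K := by
    intro K
    by_cases hK : Mx G X N K
    · have h1 := C.mx_tau hK.1
      have h2 : ed G K N ≠ 0 := by
        intro h0; rw [h0] at h1; exact absurd h1 (by norm_num)
      obtain ⟨x, hx, y, hy, hxy⟩ := ed_ne_zero h2
      exact ⟨(y, x), fun _ => ⟨⟨hy, sub_O hK.1.1 hx, hxy.symm⟩, hx⟩⟩
    · obtain ⟨x, _⟩ := C.ne
      exact ⟨(x, x), fun h => absurd h hK⟩
  choose p hp using hex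
  apply Set.Finite.of_finite_image (f := p) (hfin.subset ?_)
  · intro K hK K' hK' he
    by_contra hne
    have h1 := (hp K hK).2
    have h2 := (hp K' hK').2
    rw [he] at h1
    exact Set.disjoint_left.1 (C.mx_disj hK hK' hne).1 h1 h2
  · rintro _ ⟨K, hK, rfl⟩
    exact (hp K hK).1

lemma cover {x : V} (hx : x ∈ X \ N) : x ∈ UU G X N ∨ ∃ K, Mx G X N K ∧ x ∈ K := by
  by_cases h : ∀ K, Pc G X N K → x ∉ K
  · exact Or.inl ⟨hx, h⟩
  · push Not at h
    obtain ⟨K, hK, hxK⟩ := h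
    obtain ⟨K', hK', hle⟩ := C.exists_mx hK
    exact Or.inr ⟨K', hK', hle hxK⟩

omit C in
lemma mx_U {K : Set V} (h : Pc G X N K) : Disjoint K (UU G X N) := by
  rw [Set.disjoint_left]
  intro x hx hU
  exact hU.2 K h hx

/-- an edge from a maximal piece to a vertex of `X` outside ends in `UU` -/
lemma mx_nbr {K : Set V} (h : Mx G X N K) {x y : V} (hx : x ∈ K) (hy : y ∈ X \ N) (hyK : y ∉ K)
    (hxy : G.Adj x y) : y ∈ UU G X N := by
  rcases C.cover hy with h1 | ⟨K', hK', hy'⟩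
  · exact h1
  · exfalso
    have hne : K ≠ K' := by rintro rfl; exact hyK hy'
    exact ed_eq_zero.1 (C.mx_disj h hK' hne).2 x hx y hy' hxy

/-- edges from a maximal piece to `Y` -/
lemma mx_edge {K Y : Set V} (h : Mx G X N K) (hY : Y ⊆ X \ N) (hd : Disjoint K Y) :
    ed G K Y = ed G K (Y ∩ UU G X N) := by
  have e1 : Y = (Y ∩ UU G X N) ∪ (Y \ UU G X N) := (Set.inter_union_diff _ _).symm
  have d1 : Disjoint (Y ∩ UU G X N) (Y \ UU G X N) := by
    rw [Set.disjoint_left]; rintro x ⟨_, h1⟩ ⟨_, h2⟩; exact h2 h1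
  have e2 : ed G K (Y \ UU G X N) = 0 := by
    rw [ed_eq_zero]
    intro x hx y hy hxy
    exact hy.2 (C.mx_nbr h hx (hY hy.1) (fun h' => Set.disjoint_left.1 hd h' hy.1) hxy)
  conv_lhs => rw [e1]
  rw [ed_union_right K d1, e2, add_zero]

/-- all the boundary edges of a maximal piece (outside `N`) end in `UU` -/
lemma mx_two {K : Set V} (h : Mx G X N K) : ed G K (UU G X N) = 2 := by
  have h1 := h.1.2.2
  unfold fn at h1
  have hl := (C.loc K h.1.1 h.1.2.1 h.1.2.2).2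
  have hsub : UU G X N ⊆ Nᶜ \ K := fun x hx =>
    ⟨hx.1.2, fun h' => Set.disjoint_left.1 (mx_U h.1) h' hx⟩
  rw [ed_split_right K hsub] at h1
  have h0 : ed G K ((Nᶜ \ K) \ UU G X N) = 0 := by
    rw [ed_eq_zero]
    rintro x hx y ⟨⟨hy1, hy2⟩, hy3⟩ hxy
    by_cases hyX : y ∈ X1
    · exact hy3 (C.mx_nbr h hx ⟨C.xx hyX, hy1⟩ hy2 hxy)
    · exact ed_eq_zero.1 hl x hx y hyX hxy
  rw [h0, add_zero] at h1
  exact h1

lemma three {Y : Set V} (hY : Y ⊆ X \ N) (hU : (Y ∩ UU G X N).Nonempty) : 3 ≤ fn G N Y := by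
  have h2 := C.two Y hY (hU.mono Set.inter_subset_left)
  by_contra hcon
  have h3 : fn G N Y = 2 := by
    rw [not_le] at hcon
    have h4 : fn G N Y < ((3 : ℕ) : ℕ∞) := by exact_mod_cast hcon
    have h5 : fn G N Y ≤ ((2 : ℕ) : ℕ∞) := by
      have : ((3 : ℕ) : ℕ∞) = ((2 : ℕ) : ℕ∞) + 1 := by norm_num
      rw [this] at h4
      exact Order.le_of_lt_add_one h4
    exact le_antisymm (by exact_mod_cast h5) h2
  obtain ⟨x, hx, hxU⟩ := hU
  exact hxU.2 Y ⟨hY, ⟨x, hx⟩, h3⟩ hx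

/-- adding a maximal piece which meets or touches `Y` -/
lemma stepin {K Y : Set V} (hK : Mx G X N K) (hY : Y ⊆ X \ N)
    (h : (K ∩ Y).Nonempty ∨ 1 ≤ ed G K (Y ∩ UU G X N)) : fn G N (Y ∪ K) ≤ fn G N Y := by
  by_cases hi : (K ∩ Y).Nonempty
  · have h1 := fn_sub (G := G) (sub_O hK.1.1) (sub_O hY)
    have h2 := C.two _ (Set.inter_subset_left.trans hK.1.1) hi
    have h3 := hK.1.2.2
    rw [h3, Set.union_comm] at h1
    rw [add_comm (2 : ℕ∞)] at h1
    exact ar1 h2 h1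
  · have hd : Disjoint K Y := by
      rw [Set.disjoint_iff_inter_eq_empty]
      exact Set.not_nonempty_iff_eq_empty.1 hi
    have h1 := fn_union (G := G) (sub_O hY) (sub_O hK.1.1) hd.symm
    have h2 := h.resolve_left hi
    rw [← C.mx_edge hK hY hd] at h2
    have h3 := hK.1.2.2
    rw [h3, ed_comm Y K] at h1
    exact ar2 h1 h2

/-- removing a maximal piece which is not inside `Y` -/
lemma stepout {K Y : Set V} (hK : Mx G X N K) (hY : Y ⊆ X \ N)
    (h : ed G K (Y ∩ UU G X N) ≤ 1) : fn G N (Y \ K) ≤ fn G N Y := by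
  by_cases hi : (K \ Y).Nonempty
  · have h1 := fn_posi (G := G) (sub_O hK.1.1) (sub_O hY)
    have h2 := C.two _ (Set.diff_subset.trans hK.1.1) hi
    have h3 := hK.1.2.2
    rw [h3, add_comm (2 : ℕ∞)] at h1
    exact ar1 h2 h1
  · have hKY : K ⊆ Y := Set.diff_eq_empty.1 (Set.not_nonempty_iff_eq_empty.1 hi)
    have hd : Disjoint (Y \ K) K := disjoint_sdiff_left
    have h1 := fn_union (G := G) (sub_O (Set.diff_subset.trans hY)) (sub_O hK.1.1) hd
    rw [Set.diff_union_of_subset hKY] at h1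
    have h2 : ed G (Y \ K) K ≤ 1 := by
      rw [ed_comm, C.mx_edge hK (Set.diff_subset.trans hY) hd.symm]
      exact (ed_mono Subset.rfl (Set.inter_subset_inter_left _ Set.diff_subset)).trans h
    have h3 := hK.1.2.2
    rw [h3] at h1
    exact ar3 h1 h2

end Cfg

end Pool.H66.HE
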