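import Pool.Agent.Helper66.HE.Piece

/-! # Hubs: the sets with three boundary edges -/

open Set

namespace Pool.H66.HE

open Pool.H66.HC (prs prs_mono prs_swap)

universe u

variable {V : Type u}

theorem ar_cases (a : ℕ∞) : 2 ≤ a ∨ a ≤ 1 := by
  rcases eq_or_ne a ⊤ with rfl | h
  · exact Or.inl le_top
  · lift a to ℕ using h
    rcases Nat.lt_or_ge a 2 with h | h
    · right; exact_mod_cast (by omega : a ≤ 1)
    · left; exact_mod_cast h

theorem ar11 {a b c d : ℕ∞} (h : a + b ≤ c + d) (h1 : c ≤ 3) (h2 : d ≤ 3) (h3 : 3 ≤ a)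
    (h4 : 3 ≤ b) : a ≤ 3 ∧ b ≤ 3 := by
  have h5 : a + b ≤ ((6 : ℕ) : ℕ∞) := by
    refine h.trans ((add_le_add h1 h2).trans ?_)
    norm_num
  obtain ⟨a, rfl⟩ := ar_lift (le_self_add.trans h5)
  obtain ⟨b, rfl⟩ := ar_lift (le_add_self.trans h5)
  norm_cast at *
  omega

theorem ar12 {a b : ℕ∞} (h : 4 ≤ a + b) (h1 : a ≤ 3) : b ≠ 0 := by
  rintro rfl
  rw [add_zero] at h
  have := h.trans h1
  norm_num at this

theorem ar13 {a b : ℕ∞} (h : 2 = a + b) (h1 : 2 ≤ a) : b = 0 := ar7 h.symm h1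

theorem ar14 {a : ℕ∞} (h : a ≠ 0) : 1 ≤ a := Order.one_le_iff_ne_zero.2 h

/-- `S` with all the maximal pieces inside -/
def pl (G : SimpleGraph V) (X N S : Set V) : Set V := S ∪ ⋃₀ {K | Mx G X N K ∧ 2 ≤ ed G K S}

/-- the traces on `UU` of the sets with three boundary edges -/
def LL (G : SimpleGraph V) (X N S : Set V) : Prop :=
  S ⊆ UU G X N ∧ S.Nonempty ∧ fn G N (pl G X N S) ≤ 3

variable {G : SimpleGraph V} {X X1 N : Set V}

lemma pl_sub {S : Set V} (h : S ⊆ UU G X N) : pl G X N S ⊆ X \ N :=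
  Set.union_subset (h.trans UU_sub) (Set.sUnion_subset fun _ hK => hK.1.1.1)

lemma pl_inter {S : Set V} (h : S ⊆ UU G X N) : pl G X N S ∩ UU G X N = S := by
  ext x
  constructor
  · rintro ⟨h1 | ⟨K, hK, hx⟩, h2⟩
    · exact h1
    · exact absurd hx (h2.2 K hK.1.1)
  · intro hx
    exact ⟨Or.inl hx, h hx⟩

namespace Cfg

variable (C : Cfg G X X1 N)

include C

lemma process (M : Finset (Set V)) (hM : ∀ K ∈ M, Mx G X N K) {Y : Set V} (hY : Y ⊆ X \ N) :
    ∃ Y' ⊆ X \ N, Y' ∩ UU G X N = Y ∩ UU G X N ∧ fn G N Y' ≤ fn G N Y ∧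
      ∀ K ∈ M, (2 ≤ ed G K (Y ∩ UU G X N) → K ⊆ Y') ∧
        (ed G K (Y ∩ UU G X N) ≤ 1 → Disjoint K Y') := by
  classical
  induction M using Finset.induction_on with
  | empty => exact ⟨Y, hY, rfl, le_rfl, fun K hK => absurd hK (Finset.notMem_empty _)⟩
  | insert K M hKM ih =>
    obtain ⟨Y', h1, h2, h3, h4⟩ := ih (fun K' hK' => hM K' (Finset.mem_insert_of_mem hK'))
    have hK := hM K (Finset.mem_insert_self _ _)
    have hKU := mx_U hK.1
    have hne : ∀ K' ∈ M, Disjoint K' K := by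
      intro K' hK'
      have : K' ≠ K := by rintro rfl; exact hKM hK'
      exact (C.mx_disj (hM K' (Finset.mem_insert_of_mem hK')) hK this).1
    rcases ar_cases (ed G K (Y ∩ UU G X N)) with hc | hc
    · refine ⟨Y' ∪ K, Set.union_subset h1 hK.1.1, ?_, ?_, ?_⟩
      · rw [Set.union_inter_distrib_right, h2, Set.disjoint_iff_inter_eq_empty.1 hKU,
          Set.union_empty]
      · refine (C.stepin hK h1 (Or.inr ?_)).trans h3
        rw [h2]
        exact le_trans (by norm_num) hc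
      · intro K' hK'
        rw [Finset.mem_insert] at hK'
        rcases hK' with rfl | hK'
        · refine ⟨fun _ => Set.subset_union_right, fun h5 => ?_⟩
          exact absurd (hc.trans h5) (by norm_num)
        · obtain ⟨h5, h6⟩ := h4 K' hK'
          refine ⟨fun h7 => (h5 h7).trans Set.subset_union_left, fun h7 => ?_⟩
          exact Set.disjoint_union_right.2 ⟨h6 h7, hne K' hK'⟩
    · refine ⟨Y' \ K, Set.diff_subset.trans h1, ?_, ?_, ?_⟩
      · rw [← h2]
        ext x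
        constructor
        · rintro ⟨⟨h5, _⟩, h6⟩; exact ⟨h5, h6⟩
        · rintro ⟨h5, h6⟩
          exact ⟨⟨h5, fun h7 => Set.disjoint_left.1 hKU h7 h6⟩, h6⟩
      · refine (C.stepout hK h1 ?_).trans h3
        rw [h2]
        exact hc
      · intro K' hK'
        rw [Finset.mem_insert] at hK'
        rcases hK' with rfl | hK'
        · refine ⟨fun h5 => absurd (h5.trans hc) (by norm_num), fun _ => disjoint_sdiff_right⟩
        · obtain ⟨h5, h6⟩ := h4 K' hK'
          refine ⟨fun h7 x hx => ⟨h5 h7 hx, fun h8 => Set.disjoint_left.1 (hne K' hK') hx h8⟩,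
            fun h7 => (h6 h7).mono_right Set.diff_subset⟩

lemma opt {Y : Set V} (hY : Y ⊆ X \ N) : fn G N (pl G X N (Y ∩ UU G X N)) ≤ fn G N Y := by
  obtain ⟨Y', h1, h2, h3, h4⟩ := C.process C.mx_fin.toFinset
    (fun K hK => by simpa using hK) hY
  have e : Y' = pl G X N (Y ∩ UU G X N) := by
    ext x
    constructor
    · intro hx
      rcases C.cover (h1 hx) with hU | ⟨K, hK, hxK⟩
      · left
        rw [← h2]
        exact ⟨hx, hU⟩
      · rcases ar_cases (ed G K (Y ∩ UU G X N)) with hc | hc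
        · exact Or.inr ⟨K, ⟨hK, hc⟩, hxK⟩
        · exfalso
          exact Set.disjoint_left.1 ((h4 K ((Set.Finite.mem_toFinset _).2 hK)).2 hc) hxK hx
    · rintro (hx | ⟨K, ⟨hK, hc⟩, hxK⟩)
      · rw [← h2] at hx
        exact hx.1
      · exact (h4 K ((Set.Finite.mem_toFinset _).2 hK)).1 hc hxK
  rw [← e]
  exact h3

lemma LL_of {Y : Set V} (hY : Y ⊆ X \ N) (hne : (Y ∩ UU G X N).Nonempty) (h : fn G N Y ≤ 3) :
    LL G X N (Y ∩ UU G X N) := ⟨Set.inter_subset_right, hne, (C.opt hY).trans h⟩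

lemma LL_both {S T : Set V} (hS : LL G X N S) (hT : LL G X N T) (h : (S ∩ T).Nonempty) :
    LL G X N (S ∩ T) ∧ LL G X N (S ∪ T) := by
  have e1 : (pl G X N S ∩ pl G X N T) ∩ UU G X N = S ∩ T := by
    calc (pl G X N S ∩ pl G X N T) ∩ UU G X N
        = (pl G X N S ∩ UU G X N) ∩ (pl G X N T ∩ UU G X N) := by
          ext x; simp only [mem_inter_iff]; tauto
      _ = S ∩ T := by rw [pl_inter hS.1, pl_inter hT.1]
  have e2 : (pl G X N S ∪ pl G X N T) ∩ UU G X N = S ∪ T := by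
    rw [Set.union_inter_distrib_right, pl_inter hS.1, pl_inter hT.1]
  have s1 : pl G X N S ∩ pl G X N T ⊆ X \ N := Set.inter_subset_left.trans (pl_sub hS.1)
  have s2 : pl G X N S ∪ pl G X N T ⊆ X \ N := Set.union_subset (pl_sub hS.1) (pl_sub hT.1)
  have n2 : (S ∪ T).Nonempty := h.mono (Set.inter_subset_left.trans Set.subset_union_left)
  have h1 := fn_sub (G := G) (sub_O (pl_sub hS.1)) (sub_O (pl_sub hT.1))
  have h3 := C.three s1 (by rw [e1]; exact h)
  have h4 := C.three s2 (by rw [e2]; exact n2)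
  obtain ⟨k1, k2⟩ := ar11 h1 hS.2.2 hT.2.2 h3 h4
  have l1 := C.LL_of s1 (by rw [e1]; exact h) k1
  have l2 := C.LL_of s2 (by rw [e2]; exact n2) k2
  rw [e1] at l1
  rw [e2] at l2
  exact ⟨l1, l2⟩

/-- a maximal piece with two edges to `S` has no other neighbours -/
lemma ins_other {K S : Set V} (hK : Mx G X N K) (hS : S ⊆ UU G X N) (h : 2 ≤ ed G K S) :
    ed G K (UU G X N \ S) = 0 := by
  have h1 := C.mx_two hK
  rw [ed_split_right K hS] at h1
  exact ar7 h1 h

/-- there is an uncrossed piece inside `S` -/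
lemma exists_unc : ∀ (n : ℕ) (S : Set V), LL G X N S → ed G S N = 0 →
    ({K | Mx G X N K ∧ 2 ≤ ed G K S}).ncard ≤ n →
    ∃ K, Mx G X N K ∧ 2 ≤ ed G K S ∧ ∀ Y, LL G X N Y → ed G K Y ≠ 1 := by
  have hfin : ∀ S, ({K | Mx G X N K ∧ 2 ≤ ed G K S}).Finite := fun S =>
    C.mx_fin.subset fun K hK => hK.1
  have hne : ∀ S, LL G X N S → ed G S N = 0 → ∃ K, Mx G X N K ∧ 2 ≤ ed G K S := by
    intro S hS h0
    have h1 := C.h4 (pl G X N S) (hS.2.1.mono Set.subset_union_left)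
      (C.compl_ne (sub_O (pl_sub hS.1)))
    rw [C.deg (sub_O (pl_sub hS.1))] at h1
    obtain ⟨x, hx, y, hy, hxy⟩ := ed_ne_zero (ar12 h1 hS.2.2)
    rcases hx with hx | ⟨K, hK, hxK⟩
    · exact absurd hxy (ed_eq_zero.1 h0 x hx y hy)
    · exact ⟨K, hK⟩
  intro n
  induction n with
  | zero =>
    intro S hS h0 hn
    exfalso
    obtain ⟨K, hK⟩ := hne S hS h0
    have h1 : ({K | Mx G X N K ∧ 2 ≤ ed G K S}).ncard = 0 := by omega
    rw [Set.ncard_eq_zero (hfin S)] at h1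
    have : K ∈ ({K | Mx G X N K ∧ 2 ≤ ed G K S} : Set (Set V)) := hK
    rw [h1] at this
    exact this
  | succ n ih =>
    intro S hS h0 hn
    obtain ⟨K, hK, hK2⟩ := hne S hS h0
    by_cases hcr : ∀ Y, LL G X N Y → ed G K Y ≠ 1
    · exact ⟨K, hK, hK2, hcr⟩
    · push Not at hcr
      obtain ⟨Y, hY, hY1⟩ := hcr
      have hm : (S ∩ Y).Nonempty := by
        by_contra hcon
        have h1 : Y ⊆ UU G X N \ S := fun y hy => ⟨hY.1 hy, fun hyS => hcon ⟨y, hyS, hy⟩⟩
        have h2 := ed_zero_mono (C.ins_other hK hS.1 hK2) Subset.rfl h1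
        rw [h2] at hY1
        exact absurd hY1 (by norm_num)
      have hL := (C.LL_both hS hY hm).1
      have h1 : ed G (S ∩ Y) N = 0 := ed_zero_mono h0 Set.inter_subset_left Subset.rfl
      have h2 : ({K | Mx G X N K ∧ 2 ≤ ed G K (S ∩ Y)}).ncard <
          ({K | Mx G X N K ∧ 2 ≤ ed G K S}).ncard := by
        apply Set.ncard_lt_ncard _ (hfin S)
        refine ⟨fun K' hK' => ⟨hK'.1, hK'.2.trans (ed_mono Subset.rfl Set.inter_subset_left)⟩, ?_⟩
        intro hle
        have h3 := (hle (⟨hK, hK2⟩ : K ∈ ({K | Mx G X N K ∧ 2 ≤ ed G K S} : Set (Set V)))).2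
        have h4 := h3.trans (ed_mono Subset.rfl (Set.inter_subset_right : S ∩ Y ⊆ Y))
        rw [hY1] at h4
        exact absurd h4 (by norm_num)
      obtain ⟨K', k1, k2, k3⟩ := ih (S ∩ Y) hL h1 (by omega)
      exact ⟨K', k1, k2.trans (ed_mono Subset.rfl Set.inter_subset_left), k3⟩

lemma addall (M : Finset (Set V)) (hM : ∀ K ∈ M, Mx G X N K) {Y : Set V} (hY : Y ⊆ X \ N)
    (h1 : ∀ K ∈ M, 1 ≤ ed G K (Y ∩ UU G X N)) :
    fn G N (Y ∪ ⋃₀ (M : Set (Set V))) ≤ fn G N Y := by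
  classical
  induction M using Finset.induction_on with
  | empty => simp
  | insert K M hKM ih =>
    have ih' := ih (fun K' hK' => hM K' (Finset.mem_insert_of_mem hK'))
      (fun K' hK' => h1 K' (Finset.mem_insert_of_mem hK'))
    have hK := hM K (Finset.mem_insert_self _ _)
    have e : Y ∪ ⋃₀ ((insert K M : Finset (Set V)) : Set (Set V)) =
        (Y ∪ ⋃₀ (M : Set (Set V))) ∪ K := by
      rw [Finset.coe_insert, Set.sUnion_insert, Set.union_comm K, Set.union_assoc]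
    rw [e]
    refine (C.stepin hK ?_ (Or.inr ?_)).trans ih'
    · exact Set.union_subset hY (Set.sUnion_subset fun K' hK' =>
        (hM K' (Finset.mem_insert_of_mem hK')).1.1)
    · exact (h1 K (Finset.mem_insert_self _ _)).trans
        (ed_mono Subset.rfl (Set.inter_subset_inter_left _ Set.subset_union_left))

omit C in
lemma degN {Z : Set V} (hZ : Z ⊆ Nᶜ) :
    ed G (N ∪ Z) (N ∪ Z)ᶜ = fn G N Z + ed G N (Nᶜ \ Z) := by
  have e : (N ∪ Z)ᶜ = Nᶜ \ Z := by rw [Set.compl_union]; rfl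
  have d : Disjoint N Z := Set.disjoint_left.2 fun x h1 h2 => hZ h2 h1
  rw [e, ed_union_left _ d, add_comm]
  rfl

/-- there is a maximal piece not touching `W` -/
lemma untouched {W : Set V} (hW : LL G X N W) (h0 : ed G (UU G X N \ W) N = 0) :
    ∃ K, Mx G X N K ∧ ed G K W = 0 := by
  by_contra hcon
  push Not at hcon
  set Z := pl G X N W ∪ ⋃₀ (C.mx_fin.toFinset : Set (Set V)) with hZ
  have h1 : fn G N Z ≤ 3 := by
    refine (C.addall C.mx_fin.toFinset (fun K hK => by simpa using hK)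
      (pl_sub hW.1) ?_).trans hW.2.2
    intro K hK
    rw [pl_inter hW.1]
    exact ar14 (hcon K (by simpa using hK))
  have hsub : Z ⊆ X \ N := Set.union_subset (pl_sub hW.1) (Set.sUnion_subset fun K hK => by
    have : Mx G X N K := by simpa using hK
    exact this.1.1)
  have h2 : ed G N (Nᶜ \ Z) = 0 := by
    rw [ed_eq_zero]
    rintro x hx y ⟨hyN, hyZ⟩ hxy
    have hy1 : y ∈ X1 := by
      by_contra hy1
      exact ed_eq_zero.1 C.far x hx y hy1 hxy
    rcases C.cover ⟨C.xx hy1, hyN⟩ with hU | ⟨K, hK, hyK⟩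
    · have hyW : y ∉ W := fun h => hyZ (Or.inl (Or.inl h))
      exact ed_eq_zero.1 h0 y ⟨hU, hyW⟩ x hx hxy.symm
    · exact hyZ (Or.inr ⟨K, by simpa using hK, hyK⟩)
  have h3 := C.h4 (N ∪ Z) (C.ne.mono Set.subset_union_left) (by
    obtain ⟨x, hx⟩ := C.xc
    refine ⟨x, ?_⟩
    rintro (h | h)
    · exact hx (C.nX h)
    · exact hx (hsub h).1)
  rw [degN (sub_O hsub), h2, add_zero] at h3
  exact absurd (h3.trans h1) (by norm_num)

end Cfg

end Pool.H66.HE
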